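import Pool.Agent.MP_5fbfa0_co.Defs

/-! # Vector algebra in coordinates -/

namespace Pool.Agent.MP_5fbfa0_co

section ring
variable {R : Type*} [CommRing R]

/-- determinant of three vectors -/
def det3 (a b c : Fin 3 → R) : R :=
  a 0 * (b 1 * c 2 - b 2 * c 1) - a 1 * (b 0 * c 2 - b 2 * c 0) + a 2 * (b 0 * c 1 - b 1 * c 0)

/-- cross product -/
def crs (a b : Fin 3 → R) : Fin 3 → R :=
  ![a 1 * b 2 - a 2 * b 1, a 2 * b 0 - a 0 * b 2, a 0 * b 1 - a 1 * b 0]

/-- dot product -/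
def dot3 (a b : Fin 3 → R) : R := a 0 * b 0 + a 1 * b 1 + a 2 * b 2

variable {n : ℕ}

/-- the `i`-th edge vector -/
def edge (q : Fin (n + 1) → Fin 3 → R) (i : Fin n) : Fin 3 → R := q i.succ - q i.castSucc

/-- vector from the start of link `i` to the start of link `j` -/
def off (q : Fin (n + 1) → Fin 3 → R) (i j : Fin n) : Fin 3 → R := q j.castSucc - q i.castSucc

/-- signed volume of a pair of links -/
def vol (q : Fin (n + 1) → Fin 3 → R) (i j : Fin n) : R := det3 (edge q i) (edge q j) (off q i j)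

/-- derivative of `vol` at `p` in direction `u` -/
def dvol (p u : Fin (n + 1) → Fin 3 → R) (i j : Fin n) : R :=
  det3 (edge u i) (edge p j) (off p i j) + det3 (edge p i) (edge u j) (off p i j)
    + det3 (edge p i) (edge p j) (off u i j)

/-- second and third order terms of `vol` -/
def rvol (p u : Fin (n + 1) → Fin 3 → R) (i j : Fin n) : R :=
  det3 (edge u i) (edge u j) (off p i j) + det3 (edge p i) (edge u j) (off u i j)
    + det3 (edge u i) (edge p j) (off u i j) + det3 (edge u i) (edge u j) (off u i j)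

/-- squared length of a link -/
def len2 (q : Fin (n + 1) → Fin 3 → R) (i : Fin n) : R := dot3 (edge q i) (edge q i)

/-- half of the derivative of `len2` at `p` in direction `u` -/
def dlen (p u : Fin (n + 1) → Fin 3 → R) (i : Fin n) : R := dot3 (edge p i) (edge u i)

theorem vol_add (p u : Fin (n + 1) → Fin 3 → R) (i j : Fin n) :
    vol (p + u) i j = vol p i j + dvol p u i j + rvol p u i j := by
  simp only [vol, dvol, rvol, det3, edge, off, Pi.add_apply, Pi.sub_apply]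
  ring

theorem len2_add (p u : Fin (n + 1) → Fin 3 → R) (i : Fin n) :
    len2 (p + u) i = len2 p i + 2 * dlen p u i + len2 u i := by
  simp only [len2, dlen, dot3, edge, Pi.add_apply, Pi.sub_apply]
  ring

theorem dvol_smul (p u : Fin (n + 1) → Fin 3 → R) (r : R) (i j : Fin n) :
    dvol p (r • u) i j = r * dvol p u i j := by
  simp only [dvol, det3, edge, off, Pi.smul_apply, Pi.sub_apply, smul_eq_mul]
  ring

theorem rvol_smul (p u : Fin (n + 1) → Fin 3 → R) (r : R) (i j : Fin n) :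
    rvol p (r • u) i j = r * (r * (det3 (edge u i) (edge u j) (off p i j)
      + det3 (edge p i) (edge u j) (off u i j) + det3 (edge u i) (edge p j) (off u i j))
      + r * r * det3 (edge u i) (edge u j) (off u i j)) := by
  simp only [rvol, det3, edge, off, Pi.smul_apply, Pi.sub_apply, smul_eq_mul]
  ring

theorem dlen_smul (p u : Fin (n + 1) → Fin 3 → R) (r : R) (i : Fin n) :
    dlen p (r • u) i = r * dlen p u i := by
  simp only [dlen, dot3, edge, Pi.smul_apply, Pi.sub_apply, smul_eq_mul]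
  ring

theorem cross_identity (a b c : Fin 3 → R) (k : Fin 3) :
    dot3 (crs a b) (crs a b) * c k - det3 c b (crs a b) * a k + det3 c a (crs a b) * b k
      = det3 a b c * crs a b k := by
  fin_cases k <;> simp [dot3, det3, crs] <;> ring

end ring

theorem abs_det3_le (a b c : Fin 3 → ℝ) : |det3 a b c| ≤ 6 * (‖a‖ * ‖b‖ * ‖c‖) := by
  have h : ∀ (x : Fin 3 → ℝ) k, |x k| ≤ ‖x‖ := fun x k => by
    simpa using norm_le_pi_norm x k
  have key : ∀ i j k : Fin 3, |a i * (b j * c k)| ≤ ‖a‖ * ‖b‖ * ‖c‖ := by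
    intro i j k
    rw [abs_mul, abs_mul, mul_assoc]
    exact mul_le_mul (h a i) (mul_le_mul (h b j) (h c k) (abs_nonneg _) (norm_nonneg _))
      (by positivity) (norm_nonneg _)
  have e : det3 a b c = a 0 * (b 1 * c 2) - a 0 * (b 2 * c 1) - a 1 * (b 0 * c 2)
      + a 1 * (b 2 * c 0) + a 2 * (b 0 * c 1) - a 2 * (b 1 * c 0) := by
    simp only [det3]; ring
  rw [e, abs_le]
  have k1 := abs_le.mp (key 0 1 2)
  have k2 := abs_le.mp (key 0 2 1)
  have k3 := abs_le.mp (key 1 0 2)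
  have k4 := abs_le.mp (key 1 2 0)
  have k5 := abs_le.mp (key 2 0 1)
  have k6 := abs_le.mp (key 2 1 0)
  constructor <;> linarith [k1.1, k1.2, k2.1, k2.2, k3.1, k3.2, k4.1, k4.2, k5.1, k5.2, k6.1, k6.2]

variable {n : ℕ}

theorem norm_edge_le (u : Fin (n + 1) → Fin 3 → ℝ) (i : Fin n) : ‖edge u i‖ ≤ 2 * ‖u‖ := by
  unfold edge
  calc ‖u i.succ - u i.castSucc‖ ≤ ‖u i.succ‖ + ‖u i.castSucc‖ := norm_sub_le _ _
    _ ≤ ‖u‖ + ‖u‖ := add_le_add (norm_le_pi_norm u _) (norm_le_pi_norm u _)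
    _ = 2 * ‖u‖ := by ring

theorem norm_off_le (u : Fin (n + 1) → Fin 3 → ℝ) (i j : Fin n) : ‖off u i j‖ ≤ 2 * ‖u‖ := by
  unfold off
  calc ‖u j.castSucc - u i.castSucc‖ ≤ ‖u j.castSucc‖ + ‖u i.castSucc‖ := norm_sub_le _ _
    _ ≤ ‖u‖ + ‖u‖ := add_le_add (norm_le_pi_norm u _) (norm_le_pi_norm u _)
    _ = 2 * ‖u‖ := by ring

theorem abs_det3_le' (a b c : Fin 3 → ℝ) {x y z : ℝ} (ha : ‖a‖ ≤ x) (hb : ‖b‖ ≤ y) (hc : ‖c‖ ≤ z) :
    |det3 a b c| ≤ 6 * (x * y * z) := by
  refine (abs_det3_le a b c).trans ?_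
  have hx : 0 ≤ x := (norm_nonneg _).trans ha
  have hy : 0 ≤ y := (norm_nonneg _).trans hb
  have h1 : ‖a‖ * ‖b‖ ≤ x * y := mul_le_mul ha hb (norm_nonneg _) hx
  have h2 : ‖a‖ * ‖b‖ * ‖c‖ ≤ x * y * z := mul_le_mul h1 hc (norm_nonneg _) (by positivity)
  linarith

theorem abs_rvol_le (p u : Fin (n + 1) → Fin 3 → ℝ) (hu : ‖u‖ ≤ 1) (i j : Fin n) :
    |rvol p u i j| ≤ (144 * ‖p‖ + 48) * ‖u‖ ^ 2 := by
  have h1 := abs_det3_le' (edge u i) (edge u j) (off p i j) (norm_edge_le u i) (norm_edge_le u j)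
    (norm_off_le p i j)
  have h2 := abs_det3_le' (edge p i) (edge u j) (off u i j) (norm_edge_le p i) (norm_edge_le u j)
    (norm_off_le u i j)
  have h3 := abs_det3_le' (edge u i) (edge p j) (off u i j) (norm_edge_le u i) (norm_edge_le p j)
    (norm_off_le u i j)
  have h4 := abs_det3_le' (edge u i) (edge u j) (off u i j) (norm_edge_le u i) (norm_edge_le u j)
    (norm_off_le u i j)
  have hcube : ‖u‖ * ‖u‖ * ‖u‖ ≤ ‖u‖ ^ 2 := by
    have := mul_le_mul_of_nonneg_left hu (by positivity : 0 ≤ ‖u‖ * ‖u‖)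
    nlinarith
  have hsum : |rvol p u i j| ≤ |det3 (edge u i) (edge u j) (off p i j)|
      + |det3 (edge p i) (edge u j) (off u i j)| + |det3 (edge u i) (edge p j) (off u i j)|
      + |det3 (edge u i) (edge u j) (off u i j)| := by
    unfold rvol
    refine (abs_add_le _ _).trans ?_
    refine add_le_add ((abs_add_le _ _).trans ?_) le_rfl
    exact add_le_add (abs_add_le _ _) le_rfl
  refine hsum.trans ?_
  nlinarith [h1, h2, h3, h4, hcube, norm_nonneg p, norm_nonneg u]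

theorem abs_dot3_le (a b : Fin 3 → ℝ) : |dot3 a b| ≤ 3 * (‖a‖ * ‖b‖) := by
  have h : ∀ (x : Fin 3 → ℝ) k, |x k| ≤ ‖x‖ := fun x k => by
    simpa using norm_le_pi_norm x k
  have key : ∀ i : Fin 3, |a i * b i| ≤ ‖a‖ * ‖b‖ := by
    intro i
    rw [abs_mul]
    exact mul_le_mul (h a i) (h b i) (abs_nonneg _) (norm_nonneg _)
  unfold dot3
  rw [abs_le]
  have k1 := abs_le.mp (key 0)
  have k2 := abs_le.mp (key 1)
  have k3 := abs_le.mp (key 2)
  constructor <;> linarith [k1.1, k1.2, k2.1, k2.2, k3.1, k3.2]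

theorem abs_len2_le (u : Fin (n + 1) → Fin 3 → ℝ) (i : Fin n) : |len2 u i| ≤ 12 * ‖u‖ ^ 2 := by
  unfold len2
  refine (abs_dot3_le _ _).trans ?_
  have h := norm_edge_le u i
  have h0 := norm_nonneg (edge u i)
  nlinarith [mul_le_mul h h h0 (by positivity)]

end Pool.Agent.MP_5fbfa0_co
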