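import Pool.Agent.MP_5fbfa0_co.Cert

/-! # The explicit chain is rigid; conclusion -/

namespace Pool.Agent.MP_5fbfa0_co

open Finset Matrix

/-- the self-touching configuration -/
def pR : Fin (18 + 1) → Fin 3 → ℝ := toReal P
/-- the velocity field -/
def vR : Fin (18 + 1) → Fin 3 → ℝ := toReal Vel

/-- the set of contacts -/
def KK : Finset (Fin 18 × Fin 18) := univ.map ⟨con, con_injective⟩

/-- the stress on contacts as a function on pairs of links -/
noncomputable def ww (c : Fin 18 × Fin 18) : ℝ := ∑ m, if con m = c then (wt m : ℝ) else 0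

theorem ww_con (m : Fin 34) : ww (con m) = wt m := by
  unfold ww
  rw [sum_eq_single m]
  · simp
  · intro b _ hb
    rw [if_neg fun h => hb (con_injective h)]
  · intro h; exact absurd (mem_univ _) h

theorem mem_KK {c : Fin 18 × Fin 18} : c ∈ KK ↔ ∃ m, con m = c := by
  simp [KK]

theorem sum_KK (F : Fin 18 × Fin 18 → ℝ) : ∑ c ∈ KK, F c = ∑ m, F (con m) := by
  simp [KK]

theorem stress_R (u : Fin (18 + 1) → Fin 3 → ℝ) :
    ∑ c ∈ KK, ww c * dvol pR u c.1 c.2 + ∑ i, (rho i : ℝ) * dlen pR u i = 0 := by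
  rw [sum_KK]
  simp only [ww_con]
  have e1 : ∀ m, (wt m : ℝ) * dvol pR u (con m).1 (con m).2
      = ∑ k, ∑ a, ((wt m * gvol P (con m).1 (con m).2 k a : ℤ) : ℝ) * u k a := by
    intro m
    rw [← sum_gvol, mul_sum]
    refine sum_congr rfl fun k _ => ?_
    rw [mul_sum]
    refine sum_congr rfl fun a _ => ?_
    rw [pR, gvol_toReal]
    push_cast
    ring
  have e2 : ∀ i, (rho i : ℝ) * dlen pR u i
      = ∑ k, ∑ a, ((rho i * glen P i k a : ℤ) : ℝ) * u k a := by
    intro i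
    rw [← sum_glen, mul_sum]
    refine sum_congr rfl fun k _ => ?_
    rw [mul_sum]
    refine sum_congr rfl fun a _ => ?_
    rw [pR, glen_toReal]
    push_cast
    ring
  rw [sum_congr rfl fun m _ => e1 m, sum_congr rfl fun i _ => e2 i]
  have c1 : ∑ m, ∑ k, ∑ a, ((wt m * gvol P (con m).1 (con m).2 k a : ℤ) : ℝ) * u k a
      = ∑ k, ∑ a, ∑ m, ((wt m * gvol P (con m).1 (con m).2 k a : ℤ) : ℝ) * u k a := by
    rw [sum_comm]
    refine sum_congr rfl fun k _ => ?_
    rw [sum_comm]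
  have c2 : ∑ i, ∑ k, ∑ a, ((rho i * glen P i k a : ℤ) : ℝ) * u k a
      = ∑ k, ∑ a, ∑ i, ((rho i * glen P i k a : ℤ) : ℝ) * u k a := by
    rw [sum_comm]
    refine sum_congr rfl fun k _ => ?_
    rw [sum_comm]
  rw [c1, c2, ← sum_add_distrib]
  refine sum_eq_zero fun k _ => ?_
  rw [← sum_add_distrib]
  refine sum_eq_zero fun a _ => ?_
  rw [← sum_mul, ← sum_mul, ← add_mul]
  have h := stress_Z k a
  have h' : (∑ m, ((wt m * gvol P (con m).1 (con m).2 k a : ℤ) : ℝ))
      + ∑ i, ((rho i * glen P i k a : ℤ) : ℝ) = 0 := by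
    exact_mod_cast h
  rw [h', zero_mul]

/-- the rigidity matrix -/
def MM : Matrix (Fin 57) (Fin (18 + 1) × Fin 3) ℤ := Matrix.of fun r ka => rowf r ka.1 ka.2

/-- its inverse modulo 11 -/
def BB : Matrix (Fin (18 + 1) × Fin 3) (Fin 57) ℤ :=
  Matrix.of fun ka r => (((Bdata.getD (3 * ka.1 + ka.2) []).getD r 0 : ℕ) : ℤ)

theorem BM_mod : (BB * MM).map (Int.castRingHom (ZMod 11)) = 1 := by
  ext ⟨k, a⟩ ⟨k', a'⟩
  simp only [Matrix.map_apply, Matrix.mul_apply, BB, MM, Matrix.of_apply]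
  have h1 : (Int.castRingHom (ZMod 11)) (∑ r : Fin 57,
      (((Bdata.getD (3 * k + a) []).getD r 0 : ℕ) : ℤ) * rowf r k' a')
      = ((∑ r : Fin 57, (Bdata.getD (3 * k + a) []).getD r 0
        * (Mdata.getD (3 * k' + a') []).getD r 0 : ℕ) : ZMod 11) := by
    rw [map_sum]
    push_cast
    refine sum_congr rfl fun r _ => ?_
    rw [map_mul]
    have h2 := rowf_mod k' a' r
    have h3 : ((rowf r k' a' : ℤ) : ZMod 11)
        = (((Mdata.getD (3 * k' + a') []).getD r 0 : ℕ) : ZMod 11) := by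
      have h4 : ((rowf r k' a' % 11 : ℤ) : ZMod 11) = ((rowf r k' a' : ℤ) : ZMod 11) :=
        ZMod.intCast_mod _ 11
      rw [← h4, h2]
      push_cast
      rfl
    rw [Int.coe_castRingHom]
    beta_reduce
    rw [h3, Int.cast_natCast]
  rw [h1, ← dotN_eq 57 _ _ (lengths k a).2 (lengths k' a').1]
  have h5 := prod_mod k a k' a'
  rw [← ZMod.natCast_mod, h5, Matrix.one_apply]
  by_cases hh : k = k' ∧ a = a'
  · rw [if_pos hh, if_pos (by rw [Prod.mk.injEq]; exact hh)]
    simp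
  · rw [if_neg hh, if_neg (by rw [Prod.mk.injEq]; exact hh)]
    simp

theorem det_BM_ne : (BB * MM).det ≠ 0 := by
  intro h
  have h1 := congrArg (Int.castRingHom (ZMod 11)) h
  rw [RingHom.map_det, RingHom.mapMatrix_apply, BM_mod, Matrix.det_one, map_zero] at h1
  exact absurd h1 (by decide)

theorem MM_injective (x : Fin (18 + 1) × Fin 3 → ℝ)
    (hx : (MM.map (Int.castRingHom ℝ)) *ᵥ x = 0) : x = 0 := by
  by_contra hne
  have h1 : ((BB * MM).map (Int.castRingHom ℝ)) *ᵥ x = 0 := by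
    rw [Matrix.map_mul, ← Matrix.mulVec_mulVec, hx, Matrix.mulVec_zero]
  have h2 : ((BB * MM).map (Int.castRingHom ℝ)).det = 0 :=
    Matrix.exists_mulVec_eq_zero_iff.1 ⟨x, hne, h1⟩
  rw [← RingHom.mapMatrix_apply, ← RingHom.map_det] at h2
  have h3 : (BB * MM).det = 0 := by
    have : (((BB * MM).det : ℤ) : ℝ) = 0 := h2
    exact_mod_cast this
  exact det_BM_ne h3

theorem inj_R (u : Fin (18 + 1) → Fin 3 → ℝ) (h0 : u 0 = 0)
    (hc : ∑ k, crs (pR k) (u k) = 0) (hv : ∀ c ∈ KK, dvol pR u c.1 c.2 = 0)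
    (hl : ∀ i, dlen pR u i = 0) : u = 0 := by
  have hx : (MM.map (Int.castRingHom ℝ)) *ᵥ (fun ka => u ka.1 ka.2) = 0 := by
    funext r
    simp only [Matrix.mulVec, dotProduct, Matrix.map_apply, MM, Matrix.of_apply, Pi.zero_apply]
    rw [Fintype.sum_prod_type]
    show ∑ k, ∑ a, ((rowf r k a : ℤ) : ℝ) * u k a = 0
    by_cases r1 : r.1 < 33
    · have e : ∀ k a, ((rowf r k a : ℤ) : ℝ)
          = gvol pR (con (Fin.ofNat 34 (r + 1))).1 (con (Fin.ofNat 34 (r + 1))).2 k a := by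
        intro k a
        rw [pR, gvol_toReal, rowf, if_pos r1]
      simp only [e]
      rw [sum_gvol]
      exact hv _ (mem_KK.2 ⟨_, rfl⟩)
    · by_cases r2 : r.1 < 51
      · have e : ∀ k a, ((rowf r k a : ℤ) : ℝ) = glen pR (Fin.ofNat 18 (r - 33)) k a := by
          intro k a
          rw [pR, glen_toReal, rowf, if_neg r1, if_pos r2]
        simp only [e]
        rw [sum_glen]
        exact hl _
      · by_cases r3 : r.1 < 54
        · refine sum_eq_zero fun k _ => sum_eq_zero fun a _ => ?_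
          rw [rowf, if_neg r1, if_neg r2, if_pos r3]
          by_cases hk : k = 0
          · rw [hk, h0]; simp
          · rw [if_neg fun h => hk h.1]; simp
        · have e : ∀ k a, ((rowf r k a : ℤ) : ℝ) = gcrs pR (Fin.ofNat 3 (r - 54)) k a := by
            intro k a
            rw [pR, gcrs_toReal, rowf, if_neg r1, if_neg r2, if_neg r3]
          simp only [e]
          rw [sum_gcrs, hc]
          rfl
  have := MM_injective _ hx
  funext k a
  exact congrFun this (k, a)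

theorem rigid : Rigid pR KK ww (fun i => (rho i : ℝ)) where
  vol_zero := by
    intro c hc
    obtain ⟨m, rfl⟩ := mem_KK.1 hc
    rw [pR, vol_toReal, vol_con m]
    simp
  w_ne := by
    intro c hc
    obtain ⟨m, rfl⟩ := mem_KK.1 hc
    rw [ww_con]
    exact_mod_cast wt_ne m
  stress := stress_R
  inj := inj_R

theorem exists_near_equilateral (ε : ℝ) (hε : 0 < ε) :
    ∃ ℓ : Fin 18 → ℝ, (∀ i, |ℓ i - √18| < ε) ∧ ∃ q, IsLocked ℓ q := by
  refine exists_locked (p := pR) (v := vR) (K := KK) (w := ww) rigid ?_ ?_ ?_ ?_ ?_ ?_ ?_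
    (by positivity) ?_ ε hε
  · funext a
    simp [pR, toReal, P_zero a]
  · exact ⟨con 0, mem_KK.2 ⟨0, rfl⟩⟩
  · intro c hc
    obtain ⟨m, rfl⟩ := mem_KK.1 hc
    exact con_lt m
  · intro c hc
    obtain ⟨m, rfl⟩ := mem_KK.1 hc
    exact (crossing_con m).toReal
  · intro i j hij
    rcases vol_or i j hij with h | h
    · left
      rw [pR, vol_toReal]
      exact_mod_cast h
    · right
      rw [pR, vR, dvol_toReal]
      exact_mod_cast h
  · intro i j hij h
    obtain ⟨a, ha⟩ := crs_ne i j hij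
    have := congrFun h a
    rw [pR, crs_toReal, Pi.zero_apply] at this
    apply ha
    exact_mod_cast this
  · intro c hc
    obtain ⟨m, rfl⟩ := mem_KK.1 hc
    rw [ww_con, pR, vR, dvol_toReal]
    exact_mod_cast wt_dvol m
  · intro i
    rw [pR, len2_toReal, len2_P, Real.sq_sqrt (by norm_num)]
    norm_num

/-- For every `ε > 0` there is a chain with 18 links that has a locked configuration in space and
whose length ratio is less than `1 + ε`. -/
theorem exists_ratio_lt (ε : ℝ) (hε : 0 < ε) :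
    ∃ ℓ : Fin 18 → ℝ, (∀ i, 0 < ℓ i) ∧ (∃ q, IsLocked ℓ q) ∧ lengthRatio ℓ < 1 + ε := by
  have h18 : (4 : ℝ) ≤ √18 := by
    rw [Real.le_sqrt (by norm_num) (by norm_num)]; norm_num
  set η : ℝ := min 1 (ε / 4) with hη
  have hη0 : 0 < η := lt_min one_pos (by positivity)
  obtain ⟨ℓ, h1, h2⟩ := exists_near_equilateral η hη0
  have hη1 : η ≤ 1 := min_le_left _ _
  have hη2 : η ≤ ε / 4 := min_le_right _ _
  have hlow : ∀ i, √18 - η ≤ ℓ i := fun i => by
    have := (abs_lt.1 (h1 i)).1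
    linarith
  have hup : ∀ i, ℓ i ≤ √18 + η := fun i => by
    have := (abs_lt.1 (h1 i)).2
    linarith
  refine ⟨ℓ, fun i => by linarith [hlow i], h2, ?_⟩
  unfold lengthRatio
  have hsup : (⨆ i, ℓ i) ≤ √18 + η := ciSup_le hup
  have hinf : √18 - η ≤ ⨅ i, ℓ i := le_ciInf hlow
  have hpos : 0 < ⨅ i, ℓ i := by linarith
  rw [div_lt_iff₀ hpos]
  nlinarith

theorem one_le_lengthRatio {n : ℕ} (hn : 1 ≤ n) (ℓ : Fin n → ℝ) (hℓ : ∀ i, 0 < ℓ i) :
    1 ≤ lengthRatio ℓ := by
  have : Nonempty (Fin n) := ⟨⟨0, hn⟩⟩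
  obtain ⟨i₀, hi₀⟩ := Finite.exists_min ℓ
  have hinf : (⨅ i, ℓ i) = ℓ i₀ :=
    le_antisymm (ciInf_le (Set.finite_range ℓ).bddBelow i₀) (le_ciInf hi₀)
  have hpos : 0 < ⨅ i, ℓ i := by rw [hinf]; exact hℓ i₀
  unfold lengthRatio
  rw [one_le_div hpos, hinf]
  exact le_ciSup (Set.finite_range ℓ).bddAbove i₀

theorem isGLB_lockedRatios : IsGLB lockedRatios 1 := by
  refine ⟨?_, ?_⟩
  · rintro r ⟨n, ℓ, hn, hℓ, -, rfl⟩
    exact one_le_lengthRatio hn ℓ hℓ
  · intro b hb
    by_contra hlt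
    push Not at hlt
    obtain ⟨ℓ, h1, h2, h3⟩ := exists_ratio_lt (b - 1) (by linarith)
    have := hb ⟨18, ℓ, by norm_num, h1, h2, rfl⟩
    linarith

theorem lockedConstant_eq : lockedConstant = 1 := by
  have hne : lockedRatios.Nonempty := by
    obtain ⟨ℓ, h1, h2, -⟩ := exists_ratio_lt 1 one_pos
    exact ⟨_, 18, ℓ, by norm_num, h1, h2, rfl⟩
  exact isGLB_lockedRatios.csInf_eq hne

end Pool.Agent.MP_5fbfa0_co
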