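import Pool.Agent.MP_5fbfa0_co.Perturb

/-! # The explicit rigid self-touching equilateral chain: data

Link vectors have squared length 18. -/

namespace Pool.Agent.MP_5fbfa0_co

/-- vertices of the self-touching chain -/
def Pdata : List (List ℤ) := [
  [0, 0, 0],
  [0, 3, -3],
  [1, 2, 1],
  [-2, 2, -2],
  [2, 1, -1],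
  [-1, 4, -1],
  [0, 0, -2],
  [0, 3, 1],
  [1, 2, -3],
  [-2, 2, 0],
  [2, 3, -1],
  [-1, 0, -1],
  [0, 4, 0],
  [0, 1, -3],
  [-1, 2, 1],
  [2, 2, -2],
  [-2, 3, -1],
  [1, 0, -1],
  [0, 4, -2]]

/-- a velocity field that opens all contacts in the right directions -/
def Vdata : List (List ℤ) := [
  [19, 5, 5],
  [-16, 5, -16],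
  [0, 4, 21],
  [36, -5, 17],
  [-5, 0, -7],
  [18, -11, 5],
  [5, -8, -11],
  [-7, -7, -3],
  [-4, 8, 12],
  [-9, -6, 3],
  [-1, -5, 3],
  [-16, -19, -4],
  [0, 3, -4],
  [-4, 1, 3],
  [7, 3, -21],
  [16, -12, -1],
  [-29, 24, 2],
  [-11, 21, 1],
  [1, -1, -5]]

/-- the contacts (pairs of crossing links) used in the certificate -/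
def Cdata : List (ℕ × ℕ) := [(0, 3), (0, 8), (0, 10), (0, 12), (0, 16), (1, 4), (1, 7), (1, 17), (2, 6), (2, 8), (2, 11), (2, 14), (2, 16), (3, 5), (3, 17), (4, 10), (4, 12), (4, 14), (5, 8), (5, 13), (6, 10), (6, 14), (6, 16), (7, 9), (7, 15), (8, 12), (8, 16), (9, 11), (10, 14), (10, 16), (11, 13), (12, 15), (13, 16), (15, 17)]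

/-- the stress on the contacts -/
def Wdata : List ℤ := [-209810, 126040, -53640, -102530, 219190, -117775, -563310, -33885, 491740, 278480, -30360, 96090, 557775, 207150, 135540, 137110, -269450, -116885, 67665, 35415, 279646, 353132, 432740, 129030, -278460, -421016, 212120, -37560, 382506, 57250, 108330, 532445, -35075, 67770]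

/-- the stress on the links -/
def Rdata : List ℤ := [0, -282210, 0, 391920, -207150, 358110, -414300, 570204, -285270, 297252, -118680, -24012, 27210, -18894, 135540, -497490, 67770, 0]

/-- inverse modulo 11 of the rigidity matrix -/
def Bdata : List (List ℕ) := [
  [0, 0, 0, 0, 0, 0, 0, 0, 0, 0, 0, 0, 0, 0, 0, 0, 0, 0, 0, 0, 0, 0, 0, 0, 0, 0, 0, 0, 0, 0, 0, 0, 0, 0, 0, 0, 0, 0, 0, 0, 0, 0, 0, 0, 0, 0, 0, 0, 0, 0, 0, 1, 0, 0, 0, 0, 0],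
  [0, 0, 0, 0, 0, 0, 0, 0, 0, 0, 0, 0, 0, 0, 0, 0, 0, 0, 0, 0, 0, 0, 0, 0, 0, 0, 0, 0, 0, 0, 0, 0, 0, 0, 0, 0, 0, 0, 0, 0, 0, 0, 0, 0, 0, 0, 0, 0, 0, 0, 0, 0, 1, 0, 0, 0, 0],
  [0, 0, 0, 0, 0, 0, 0, 0, 0, 0, 0, 0, 0, 0, 0, 0, 0, 0, 0, 0, 0, 0, 0, 0, 0, 0, 0, 0, 0, 0, 0, 0, 0, 0, 0, 0, 0, 0, 0, 0, 0, 0, 0, 0, 0, 0, 0, 0, 0, 0, 0, 0, 0, 1, 0, 0, 0],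
  [0, 9, 2, 5, 4, 2, 5, 8, 5, 4, 6, 5, 5, 8, 5, 4, 5, 9, 4, 2, 3, 9, 8, 2, 5, 4, 10, 9, 2, 4, 0, 9, 7, 7, 2, 5, 7, 8, 10, 4, 3, 1, 0, 5, 2, 3, 7, 1, 8, 4, 0, 3, 1, 3, 6, 10, 0],
  [10, 9, 8, 8, 7, 0, 10, 7, 8, 5, 3, 3, 9, 5, 6, 5, 8, 2, 5, 9, 4, 6, 6, 2, 5, 0, 7, 8, 2, 10, 5, 5, 6, 8, 5, 9, 10, 6, 0, 8, 6, 6, 5, 6, 6, 10, 6, 7, 3, 1, 10, 1, 5, 1, 2, 5, 0],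
  [10, 9, 8, 8, 7, 0, 10, 7, 8, 5, 3, 3, 9, 5, 6, 5, 8, 2, 5, 9, 4, 6, 6, 2, 5, 0, 7, 8, 2, 10, 5, 5, 6, 4, 5, 9, 10, 6, 0, 8, 6, 6, 5, 6, 6, 10, 6, 7, 3, 1, 10, 1, 4, 2, 2, 5, 0],
  [9, 9, 5, 2, 10, 10, 10, 3, 3, 4, 3, 2, 9, 7, 1, 0, 0, 0, 6, 5, 5, 3, 2, 9, 9, 8, 0, 10, 3, 7, 2, 6, 1, 5, 4, 0, 7, 6, 2, 0, 2, 2, 10, 2, 6, 4, 8, 6, 3, 2, 5, 8, 7, 10, 9, 5, 10],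
  [5, 0, 10, 5, 5, 8, 10, 3, 9, 4, 4, 5, 3, 2, 8, 3, 4, 4, 10, 7, 3, 7, 6, 0, 5, 1, 9, 6, 7, 6, 10, 8, 4, 0, 10, 4, 10, 9, 6, 0, 5, 5, 5, 9, 9, 2, 0, 0, 0, 2, 6, 2, 7, 7, 3, 9, 4],
  [1, 4, 5, 8, 5, 0, 6, 10, 6, 2, 4, 7, 1, 10, 2, 0, 0, 2, 3, 5, 6, 5, 2, 8, 4, 2, 10, 10, 3, 0, 3, 1, 7, 8, 6, 9, 10, 10, 9, 7, 6, 0, 8, 2, 3, 5, 7, 4, 9, 10, 5, 0, 3, 10, 7, 10, 4],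
  [6, 6, 8, 10, 4, 9, 0, 7, 9, 2, 2, 7, 5, 4, 9, 5, 10, 7, 9, 5, 3, 2, 1, 9, 9, 3, 1, 6, 7, 5, 0, 3, 4, 1, 10, 7, 9, 2, 3, 5, 0, 6, 0, 10, 0, 2, 1, 3, 0, 2, 0, 6, 8, 2, 4, 3, 0],
  [10, 7, 2, 4, 9, 9, 2, 9, 1, 4, 1, 0, 5, 7, 5, 9, 2, 9, 1, 6, 5, 3, 2, 1, 0, 10, 7, 9, 7, 7, 10, 2, 3, 6, 3, 9, 8, 10, 7, 6, 4, 10, 7, 2, 9, 10, 2, 0, 5, 7, 10, 7, 0, 8, 5, 4, 3],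
  [4, 7, 2, 0, 0, 1, 5, 6, 0, 4, 5, 2, 5, 2, 5, 6, 1, 6, 0, 5, 8, 6, 3, 8, 4, 7, 9, 3, 10, 2, 5, 4, 4, 1, 0, 9, 8, 3, 8, 2, 8, 7, 7, 5, 9, 7, 3, 7, 1, 10, 10, 2, 2, 7, 1, 1, 3],
  [10, 4, 1, 4, 2, 9, 8, 8, 8, 2, 5, 7, 0, 3, 10, 0, 10, 7, 10, 3, 7, 5, 8, 4, 2, 4, 5, 0, 5, 8, 5, 3, 8, 6, 0, 9, 3, 10, 7, 3, 4, 0, 9, 5, 10, 2, 3, 8, 7, 7, 0, 9, 4, 1, 2, 7, 0],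
  [9, 8, 6, 8, 9, 10, 6, 2, 7, 1, 8, 6, 10, 6, 10, 7, 10, 8, 3, 1, 1, 6, 6, 10, 3, 5, 10, 2, 6, 9, 2, 2, 7, 4, 3, 4, 9, 3, 4, 3, 8, 10, 2, 10, 9, 2, 8, 4, 4, 9, 0, 5, 6, 4, 8, 1, 8],
  [9, 5, 1, 6, 8, 2, 10, 6, 10, 1, 0, 8, 8, 5, 6, 2, 9, 5, 9, 8, 10, 8, 1, 4, 2, 9, 7, 9, 6, 3, 10, 4, 3, 1, 7, 7, 1, 8, 0, 7, 7, 9, 10, 0, 2, 10, 1, 2, 5, 3, 0, 10, 2, 7, 1, 4, 8],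
  [3, 0, 1, 2, 3, 0, 6, 3, 0, 2, 0, 7, 3, 5, 0, 10, 4, 5, 4, 5, 1, 1, 5, 2, 9, 7, 3, 9, 1, 10, 1, 1, 2, 6, 2, 5, 8, 4, 5, 3, 0, 8, 8, 1, 8, 2, 8, 3, 3, 1, 5, 2, 4, 1, 2, 8, 10],
  [2, 4, 6, 6, 10, 1, 4, 8, 10, 1, 3, 6, 2, 8, 0, 6, 4, 6, 8, 3, 6, 2, 3, 8, 10, 8, 8, 0, 2, 0, 9, 0, 1, 4, 5, 0, 3, 1, 2, 3, 4, 7, 1, 6, 7, 2, 2, 10, 0, 3, 5, 9, 6, 4, 8, 2, 7],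
  [4, 7, 3, 10, 10, 7, 6, 2, 4, 3, 9, 1, 1, 10, 0, 9, 7, 10, 4, 1, 0, 6, 10, 10, 1, 9, 6, 8, 5, 1, 5, 7, 10, 0, 2, 7, 5, 5, 10, 6, 2, 9, 8, 5, 1, 0, 8, 9, 2, 8, 4, 2, 5, 5, 8, 0, 7],
  [1, 10, 9, 6, 6, 7, 0, 4, 8, 8, 5, 2, 1, 8, 4, 0, 2, 10, 1, 1, 5, 0, 2, 10, 8, 2, 5, 7, 10, 9, 9, 7, 7, 1, 6, 6, 8, 1, 7, 7, 1, 9, 10, 10, 9, 2, 7, 8, 9, 5, 4, 7, 8, 2, 4, 6, 8],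
  [7, 3, 8, 4, 0, 9, 2, 3, 5, 9, 8, 6, 6, 0, 6, 9, 4, 2, 9, 10, 9, 10, 8, 8, 3, 3, 8, 7, 7, 8, 0, 4, 6, 6, 5, 8, 4, 6, 0, 9, 1, 8, 4, 5, 8, 2, 5, 5, 10, 10, 3, 8, 0, 8, 5, 7, 0],
  [4, 10, 3, 0, 9, 4, 8, 1, 10, 10, 5, 7, 5, 1, 2, 9, 5, 9, 8, 2, 3, 6, 9, 7, 6, 2, 8, 0, 5, 1, 5, 8, 6, 9, 6, 9, 1, 4, 8, 8, 4, 6, 9, 7, 9, 0, 6, 1, 1, 6, 0, 0, 0, 1, 0, 0, 0],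
  [9, 9, 6, 2, 3, 10, 5, 0, 0, 10, 7, 1, 3, 3, 8, 4, 1, 0, 2, 9, 4, 7, 4, 4, 0, 0, 0, 6, 2, 8, 4, 6, 4, 5, 1, 4, 2, 6, 7, 1, 1, 5, 2, 7, 6, 10, 4, 7, 1, 5, 3, 2, 7, 10, 9, 9, 6],
  [4, 8, 6, 7, 1, 9, 2, 2, 4, 9, 2, 7, 2, 10, 1, 5, 3, 0, 5, 7, 5, 3, 1, 1, 4, 4, 6, 3, 1, 0, 8, 9, 2, 0, 0, 10, 10, 6, 9, 4, 2, 2, 5, 4, 4, 5, 8, 2, 4, 0, 4, 7, 7, 7, 3, 2, 0],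
  [7, 5, 5, 8, 8, 4, 8, 2, 0, 10, 0, 6, 9, 2, 7, 2, 6, 0, 1, 5, 7, 2, 5, 3, 5, 1, 10, 4, 0, 9, 8, 3, 10, 4, 0, 7, 6, 4, 10, 6, 3, 1, 8, 8, 2, 8, 3, 4, 7, 5, 10, 1, 4, 2, 2, 5, 0],
  [0, 9, 1, 5, 10, 0, 5, 3, 4, 1, 6, 10, 4, 10, 6, 10, 3, 4, 0, 2, 4, 4, 6, 8, 5, 6, 4, 0, 0, 0, 8, 3, 3, 7, 2, 10, 1, 2, 2, 4, 3, 1, 6, 9, 5, 9, 8, 9, 5, 0, 2, 9, 1, 3, 6, 6, 4],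
  [0, 1, 1, 6, 1, 4, 1, 5, 6, 8, 1, 8, 6, 10, 5, 4, 10, 0, 7, 5, 2, 0, 0, 0, 4, 3, 5, 2, 0, 8, 8, 10, 9, 8, 7, 5, 10, 4, 0, 3, 10, 6, 7, 2, 8, 6, 1, 7, 4, 4, 1, 7, 5, 1, 2, 1, 4],
  [3, 4, 5, 9, 7, 0, 0, 2, 6, 8, 0, 8, 0, 1, 0, 1, 2, 1, 0, 1, 5, 2, 3, 7, 9, 0, 3, 0, 8, 5, 9, 2, 8, 8, 4, 7, 3, 9, 0, 7, 4, 10, 3, 9, 9, 2, 3, 6, 8, 0, 5, 0, 3, 10, 7, 10, 4],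
  [3, 4, 3, 0, 7, 9, 10, 3, 5, 9, 4, 6, 5, 0, 3, 2, 7, 4, 3, 9, 5, 10, 10, 2, 3, 10, 8, 1, 8, 0, 1, 4, 10, 0, 4, 1, 8, 9, 4, 5, 5, 4, 9, 8, 10, 0, 6, 10, 5, 10, 7, 0, 0, 0, 0, 8, 3],
  [7, 1, 1, 9, 0, 0, 1, 8, 9, 2, 8, 4, 9, 3, 1, 3, 10, 0, 8, 7, 0, 1, 5, 1, 6, 9, 9, 0, 5, 6, 0, 1, 6, 2, 10, 3, 8, 7, 10, 10, 7, 4, 6, 0, 4, 8, 7, 2, 3, 6, 7, 10, 1, 0, 0, 8, 3],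
  [6, 10, 7, 4, 4, 9, 5, 2, 7, 5, 9, 4, 1, 2, 8, 4, 6, 1, 3, 8, 6, 8, 7, 1, 7, 4, 7, 1, 5, 5, 2, 3, 4, 1, 6, 9, 10, 5, 2, 8, 6, 6, 6, 8, 3, 4, 1, 7, 8, 10, 10, 2, 2, 7, 1, 1, 3],
  [9, 4, 3, 9, 6, 10, 1, 10, 5, 1, 1, 3, 9, 5, 10, 5, 8, 9, 5, 6, 8, 6, 7, 1, 4, 9, 0, 10, 4, 1, 7, 3, 8, 6, 6, 10, 1, 2, 5, 9, 8, 5, 8, 5, 4, 0, 5, 9, 7, 7, 7, 8, 4, 1, 2, 4, 3],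
  [9, 10, 2, 10, 9, 6, 10, 4, 7, 10, 10, 2, 5, 1, 2, 0, 4, 4, 0, 0, 3, 7, 4, 8, 1, 4, 4, 0, 4, 1, 2, 10, 10, 4, 1, 4, 7, 10, 6, 4, 2, 9, 7, 4, 8, 5, 6, 10, 2, 1, 0, 5, 6, 4, 8, 1, 8],
  [10, 8, 8, 8, 9, 8, 0, 4, 5, 3, 10, 1, 2, 9, 4, 2, 4, 3, 3, 0, 10, 9, 5, 4, 6, 6, 3, 4, 10, 4, 6, 8, 0, 5, 5, 2, 3, 2, 2, 7, 2, 4, 2, 0, 5, 1, 7, 0, 4, 4, 3, 7, 1, 4, 6, 0, 8],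
  [2, 5, 9, 1, 1, 7, 6, 8, 1, 1, 2, 7, 7, 2, 9, 2, 9, 6, 3, 6, 0, 2, 6, 9, 4, 7, 7, 8, 10, 3, 6, 4, 8, 6, 10, 3, 9, 5, 9, 7, 5, 2, 9, 3, 6, 6, 7, 2, 4, 7, 2, 4, 4, 1, 2, 3, 4],
  [5, 9, 7, 7, 3, 9, 5, 6, 0, 10, 9, 9, 7, 4, 3, 3, 3, 7, 2, 0, 0, 0, 5, 0, 1, 6, 8, 2, 9, 10, 3, 9, 10, 4, 8, 0, 10, 7, 2, 6, 5, 1, 6, 2, 6, 10, 4, 6, 5, 1, 5, 9, 6, 4, 8, 2, 7],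
  [2, 1, 0, 6, 8, 6, 4, 6, 3, 10, 0, 4, 2, 2, 6, 9, 6, 3, 5, 6, 0, 4, 2, 10, 4, 4, 3, 7, 8, 10, 2, 10, 5, 3, 6, 6, 1, 6, 6, 6, 1, 8, 2, 5, 6, 7, 7, 2, 4, 6, 9, 8, 7, 0, 9, 8, 7],
  [1, 8, 8, 3, 4, 4, 3, 4, 9, 4, 5, 10, 5, 2, 2, 4, 9, 1, 1, 5, 8, 9, 3, 6, 3, 6, 6, 10, 8, 5, 2, 7, 10, 0, 7, 2, 4, 1, 5, 9, 7, 1, 6, 9, 10, 8, 1, 0, 5, 10, 3, 10, 0, 0, 0, 5, 6],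
  [8, 1, 10, 4, 10, 9, 8, 0, 4, 8, 0, 6, 2, 1, 3, 8, 1, 5, 7, 6, 0, 7, 4, 8, 4, 0, 2, 4, 0, 4, 7, 6, 6, 2, 4, 2, 8, 0, 5, 9, 10, 2, 0, 4, 0, 8, 4, 1, 0, 6, 0, 0, 1, 0, 0, 0, 0],
  [2, 8, 0, 5, 10, 9, 6, 1, 1, 4, 0, 2, 2, 3, 2, 9, 3, 5, 9, 5, 3, 2, 9, 3, 4, 7, 6, 8, 2, 10, 1, 8, 8, 6, 3, 10, 3, 5, 9, 3, 1, 5, 7, 2, 5, 2, 2, 2, 1, 5, 6, 5, 9, 6, 10, 3, 0],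
  [5, 5, 8, 9, 2, 0, 9, 6, 6, 2, 9, 0, 8, 7, 4, 2, 6, 3, 9, 5, 10, 10, 1, 10, 9, 1, 7, 4, 9, 7, 10, 0, 2, 7, 4, 4, 5, 2, 2, 5, 5, 6, 8, 6, 8, 10, 1, 1, 0, 10, 4, 4, 1, 3, 6, 2, 8],
  [7, 7, 1, 10, 4, 2, 9, 0, 7, 9, 2, 10, 9, 9, 10, 1, 4, 3, 9, 2, 3, 6, 7, 0, 5, 10, 2, 1, 2, 4, 0, 2, 8, 8, 2, 0, 0, 8, 2, 10, 8, 9, 2, 4, 5, 7, 1, 0, 6, 3, 10, 1, 5, 1, 2, 5, 0],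
  [3, 2, 9, 10, 5, 5, 5, 1, 9, 3, 9, 9, 6, 6, 6, 5, 0, 7, 7, 9, 0, 3, 6, 0, 3, 8, 6, 0, 0, 10, 8, 1, 6, 0, 5, 1, 0, 8, 1, 2, 3, 9, 5, 2, 0, 10, 5, 3, 6, 8, 7, 4, 5, 5, 8, 9, 0],
  [0, 1, 10, 6, 8, 9, 10, 3, 8, 3, 2, 6, 9, 7, 7, 10, 10, 1, 8, 0, 10, 8, 1, 8, 2, 9, 10, 3, 9, 9, 4, 1, 1, 5, 10, 9, 5, 4, 5, 9, 10, 10, 8, 10, 6, 4, 8, 6, 8, 2, 5, 8, 7, 10, 9, 5, 10],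
  [2, 1, 10, 10, 0, 2, 0, 9, 0, 2, 3, 2, 10, 5, 4, 1, 9, 6, 4, 10, 7, 9, 10, 10, 7, 8, 1, 4, 10, 6, 9, 7, 10, 0, 6, 5, 7, 5, 5, 1, 3, 10, 7, 4, 6, 5, 9, 2, 8, 8, 2, 1, 7, 7, 3, 6, 7],
  [3, 8, 10, 1, 2, 10, 2, 9, 3, 5, 7, 7, 6, 7, 0, 7, 8, 3, 8, 3, 10, 10, 8, 8, 9, 5, 7, 10, 9, 10, 7, 0, 8, 7, 0, 1, 1, 1, 1, 8, 0, 7, 1, 3, 2, 9, 5, 1, 2, 2, 1, 5, 6, 8, 3, 4, 7],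
  [0, 0, 9, 1, 9, 10, 6, 10, 9, 7, 9, 4, 2, 2, 10, 4, 10, 1, 9, 9, 0, 10, 4, 6, 8, 8, 9, 1, 3, 8, 8, 3, 3, 1, 0, 7, 5, 3, 10, 9, 6, 2, 10, 1, 0, 10, 9, 3, 5, 1, 0, 6, 8, 2, 4, 3, 0],
  [5, 5, 2, 5, 8, 10, 0, 8, 8, 8, 1, 6, 2, 1, 2, 2, 3, 5, 2, 0, 8, 10, 5, 3, 7, 7, 1, 2, 1, 7, 1, 4, 2, 6, 0, 7, 3, 7, 9, 4, 8, 0, 3, 1, 4, 4, 6, 7, 0, 6, 7, 9, 0, 8, 5, 10, 8],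
  [3, 7, 9, 7, 3, 0, 9, 5, 4, 9, 3, 5, 10, 2, 3, 1, 8, 3, 9, 1, 0, 1, 0, 6, 4, 4, 6, 8, 3, 9, 0, 2, 10, 3, 1, 10, 1, 0, 6, 8, 7, 10, 3, 5, 7, 4, 6, 5, 10, 1, 7, 3, 7, 0, 9, 2, 8],
  [1, 9, 4, 10, 4, 9, 2, 8, 6, 10, 7, 6, 3, 1, 1, 9, 3, 4, 8, 8, 5, 0, 5, 2, 4, 3, 10, 6, 10, 7, 6, 7, 6, 6, 9, 10, 8, 8, 3, 10, 2, 4, 8, 1, 8, 3, 3, 7, 3, 5, 7, 8, 4, 1, 2, 4, 3],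
  [10, 2, 0, 8, 9, 2, 4, 0, 4, 9, 1, 6, 8, 6, 4, 3, 6, 7, 7, 7, 10, 7, 0, 6, 8, 8, 4, 0, 6, 1, 7, 4, 5, 4, 7, 6, 4, 2, 7, 6, 6, 7, 5, 7, 1, 8, 4, 0, 6, 7, 3, 3, 6, 4, 8, 6, 3],
  [2, 2, 2, 7, 4, 4, 0, 5, 7, 9, 6, 2, 8, 4, 9, 9, 10, 2, 0, 1, 7, 8, 9, 9, 9, 5, 7, 8, 4, 0, 8, 7, 8, 3, 8, 1, 1, 3, 2, 10, 4, 0, 4, 10, 9, 5, 6, 6, 8, 5, 6, 6, 7, 0, 9, 10, 3],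
  [8, 5, 9, 4, 9, 10, 10, 9, 1, 10, 7, 3, 10, 8, 3, 4, 3, 5, 8, 7, 5, 4, 4, 8, 9, 6, 6, 6, 9, 1, 10, 2, 0, 6, 4, 3, 10, 2, 0, 1, 7, 5, 2, 5, 6, 5, 0, 10, 5, 1, 2, 4, 4, 1, 2, 3, 4],
  [6, 9, 5, 2, 3, 3, 1, 1, 10, 9, 1, 3, 4, 2, 6, 9, 6, 8, 7, 6, 10, 0, 10, 1, 2, 0, 0, 0, 5, 6, 0, 10, 10, 4, 2, 10, 6, 7, 4, 8, 0, 8, 10, 0, 10, 10, 1, 3, 8, 10, 9, 10, 6, 4, 8, 5, 4],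
  [6, 4, 3, 1, 5, 8, 4, 0, 2, 7, 2, 9, 10, 10, 9, 0, 3, 9, 1, 0, 7, 10, 0, 2, 8, 10, 1, 5, 1, 1, 1, 5, 1, 4, 10, 1, 2, 0, 6, 10, 0, 10, 1, 0, 4, 5, 2, 10, 2, 0, 2, 3, 4, 2, 2, 3, 4],
  [6, 7, 8, 0, 5, 2, 3, 0, 0, 1, 9, 1, 9, 2, 2, 7, 3, 1, 5, 1, 4, 3, 10, 7, 1, 5, 6, 2, 0, 1, 9, 3, 0, 1, 3, 8, 0, 10, 6, 10, 7, 9, 9, 6, 4, 0, 0, 7, 0, 9, 10, 5, 8, 2, 4, 0, 3],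
  [1, 8, 9, 6, 7, 2, 8, 6, 5, 3, 4, 3, 6, 1, 9, 4, 6, 4, 2, 3, 6, 9, 3, 9, 6, 4, 9, 2, 5, 3, 5, 2, 8, 6, 6, 8, 1, 6, 10, 0, 0, 5, 0, 7, 0, 9, 9, 7, 1, 10, 2, 8, 0, 8, 5, 7, 0],
  [10, 9, 9, 10, 3, 1, 6, 7, 5, 3, 1, 0, 8, 1, 0, 10, 3, 8, 6, 5, 3, 3, 10, 2, 10, 5, 4, 6, 10, 0, 0, 5, 4, 6, 5, 10, 3, 10, 2, 2, 0, 5, 9, 5, 10, 6, 1, 7, 1, 3, 9, 5, 9, 6, 10, 3, 0]]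

/-- columns of the rigidity matrix modulo 11 -/
def Mdata : List (List ℕ) := [
  [8, 6, 6, 6, 0, 0, 0, 0, 0, 0, 0, 0, 0, 0, 0, 0, 0, 0, 0, 0, 0, 0, 0, 0, 0, 0, 0, 0, 0, 0, 0, 0, 0, 0, 0, 0, 0, 0, 0, 0, 0, 0, 0, 0, 0, 0, 0, 0, 0, 0, 0, 1, 0, 0, 0, 0, 0],
  [8, 5, 0, 6, 0, 0, 0, 0, 0, 0, 0, 0, 0, 0, 0, 0, 0, 0, 0, 0, 0, 0, 0, 0, 0, 0, 0, 0, 0, 0, 0, 0, 0, 8, 0, 0, 0, 0, 0, 0, 0, 0, 0, 0, 0, 0, 0, 0, 0, 0, 0, 0, 1, 0, 0, 0, 0],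
  [8, 5, 0, 6, 0, 0, 0, 0, 0, 0, 0, 0, 0, 0, 0, 0, 0, 0, 0, 0, 0, 0, 0, 0, 0, 0, 0, 0, 0, 0, 0, 0, 0, 3, 0, 0, 0, 0, 0, 0, 0, 0, 0, 0, 0, 0, 0, 0, 0, 0, 0, 0, 0, 1, 0, 0, 0],
  [5, 3, 1, 3, 6, 7, 10, 0, 0, 0, 0, 0, 0, 0, 0, 0, 0, 0, 0, 0, 0, 0, 0, 0, 0, 0, 0, 0, 0, 0, 0, 0, 0, 0, 10, 0, 0, 0, 0, 0, 0, 0, 0, 0, 0, 0, 0, 0, 0, 0, 0, 0, 0, 0, 0, 8, 8],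
  [5, 8, 0, 3, 6, 7, 2, 0, 0, 0, 0, 0, 0, 0, 0, 0, 0, 0, 0, 0, 0, 0, 0, 0, 0, 0, 0, 0, 0, 0, 0, 0, 0, 3, 1, 0, 0, 0, 0, 0, 0, 0, 0, 0, 0, 0, 0, 0, 0, 0, 0, 0, 0, 0, 3, 0, 0],
  [5, 8, 0, 3, 0, 0, 9, 0, 0, 0, 0, 0, 0, 0, 0, 0, 0, 0, 0, 0, 0, 0, 0, 0, 0, 0, 0, 0, 0, 0, 0, 0, 0, 8, 7, 0, 0, 0, 0, 0, 0, 0, 0, 0, 0, 0, 0, 0, 0, 0, 0, 0, 0, 0, 3, 0, 0],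
  [0, 0, 0, 0, 6, 7, 5, 5, 0, 5, 0, 3, 0, 0, 0, 0, 0, 0, 0, 0, 0, 0, 0, 0, 0, 0, 0, 0, 0, 0, 0, 0, 0, 0, 1, 3, 0, 0, 0, 0, 0, 0, 0, 0, 0, 0, 0, 0, 0, 0, 0, 0, 0, 0, 0, 1, 9],
  [0, 0, 0, 0, 6, 7, 1, 5, 5, 0, 1, 3, 0, 0, 0, 0, 0, 0, 0, 0, 0, 0, 0, 0, 0, 0, 0, 0, 0, 0, 0, 0, 0, 0, 10, 0, 0, 0, 0, 0, 0, 0, 0, 0, 0, 0, 0, 0, 0, 0, 0, 0, 0, 0, 10, 0, 1],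
  [0, 0, 0, 0, 0, 0, 10, 6, 0, 6, 0, 8, 0, 0, 0, 0, 0, 0, 0, 0, 0, 0, 0, 0, 0, 0, 0, 0, 0, 0, 0, 0, 0, 0, 4, 3, 0, 0, 0, 0, 0, 0, 0, 0, 0, 0, 0, 0, 0, 0, 0, 0, 0, 0, 2, 10, 0],
  [0, 0, 0, 0, 0, 0, 0, 8, 0, 5, 0, 6, 8, 1, 0, 0, 0, 0, 0, 0, 0, 0, 0, 0, 0, 0, 0, 0, 0, 0, 0, 0, 0, 0, 0, 8, 7, 0, 0, 0, 0, 0, 0, 0, 0, 0, 0, 0, 0, 0, 0, 0, 0, 0, 0, 9, 9],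
  [0, 0, 0, 0, 0, 0, 0, 8, 10, 0, 6, 6, 8, 10, 0, 0, 0, 0, 0, 0, 0, 0, 0, 0, 0, 0, 0, 0, 0, 0, 0, 0, 0, 0, 0, 0, 1, 0, 0, 0, 0, 0, 0, 0, 0, 0, 0, 0, 0, 0, 0, 0, 0, 0, 2, 0, 9],
  [0, 0, 0, 0, 0, 0, 0, 3, 0, 6, 0, 5, 9, 6, 0, 0, 0, 0, 0, 0, 0, 0, 0, 0, 0, 0, 0, 0, 0, 0, 0, 0, 0, 0, 0, 8, 10, 0, 0, 0, 0, 0, 0, 0, 0, 0, 0, 0, 0, 0, 0, 0, 0, 0, 2, 2, 0],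
  [0, 0, 0, 0, 5, 0, 0, 0, 0, 0, 0, 0, 9, 2, 0, 3, 6, 0, 0, 0, 0, 0, 0, 0, 0, 0, 0, 0, 0, 0, 0, 0, 0, 0, 0, 0, 4, 3, 0, 0, 0, 0, 0, 0, 0, 0, 0, 0, 0, 0, 0, 0, 0, 0, 0, 10, 10],
  [0, 0, 0, 0, 5, 0, 0, 0, 0, 0, 0, 0, 9, 9, 0, 3, 6, 0, 0, 0, 0, 0, 0, 0, 0, 0, 0, 0, 0, 0, 0, 0, 0, 0, 0, 0, 10, 8, 0, 0, 0, 0, 0, 0, 0, 0, 0, 0, 0, 0, 0, 0, 0, 0, 1, 0, 2],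
  [0, 0, 0, 0, 0, 0, 0, 0, 0, 0, 0, 0, 6, 1, 10, 8, 6, 0, 0, 0, 0, 0, 0, 0, 0, 0, 0, 0, 0, 0, 0, 0, 0, 0, 0, 0, 1, 0, 0, 0, 0, 0, 0, 0, 0, 0, 0, 0, 0, 0, 0, 0, 0, 0, 1, 9, 0],
  [0, 0, 0, 0, 5, 0, 0, 0, 0, 0, 0, 0, 2, 0, 0, 6, 3, 6, 5, 0, 0, 0, 0, 0, 0, 0, 0, 0, 0, 0, 0, 0, 0, 0, 0, 0, 0, 8, 10, 0, 0, 0, 0, 0, 0, 0, 0, 0, 0, 0, 0, 0, 0, 0, 0, 10, 7],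
  [0, 0, 0, 0, 5, 0, 0, 0, 0, 0, 0, 0, 2, 0, 0, 6, 3, 0, 1, 0, 0, 0, 0, 0, 0, 0, 0, 0, 0, 0, 0, 0, 0, 0, 0, 0, 0, 3, 4, 0, 0, 0, 0, 0, 0, 0, 0, 0, 0, 0, 0, 0, 0, 0, 1, 0, 10],
  [0, 0, 0, 0, 0, 0, 0, 0, 0, 0, 0, 0, 5, 0, 5, 5, 3, 6, 1, 0, 0, 0, 0, 0, 0, 0, 0, 0, 0, 0, 0, 0, 0, 0, 0, 0, 0, 0, 1, 0, 0, 0, 0, 0, 0, 0, 0, 0, 0, 0, 0, 0, 0, 0, 4, 1, 0],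
  [0, 0, 0, 0, 0, 0, 0, 3, 0, 0, 0, 0, 3, 0, 0, 0, 0, 6, 10, 5, 3, 5, 0, 0, 0, 0, 0, 0, 0, 0, 0, 0, 0, 0, 0, 0, 0, 0, 1, 0, 0, 0, 0, 0, 0, 0, 0, 0, 0, 0, 0, 0, 0, 0, 0, 9, 0],
  [0, 0, 0, 0, 0, 0, 0, 3, 0, 0, 0, 0, 3, 0, 0, 0, 0, 0, 2, 6, 8, 5, 0, 0, 0, 0, 0, 0, 0, 0, 0, 0, 0, 0, 0, 0, 0, 0, 7, 8, 0, 0, 0, 0, 0, 0, 0, 0, 0, 0, 0, 0, 0, 0, 2, 0, 0],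
  [0, 0, 0, 0, 0, 0, 0, 8, 0, 0, 0, 0, 2, 0, 0, 0, 0, 6, 2, 5, 3, 6, 0, 0, 0, 0, 0, 0, 0, 0, 0, 0, 0, 0, 0, 0, 0, 0, 10, 8, 0, 0, 0, 0, 0, 0, 0, 0, 0, 0, 0, 0, 0, 0, 0, 0, 0],
  [0, 0, 0, 0, 0, 4, 0, 6, 0, 0, 0, 0, 0, 0, 0, 0, 0, 0, 0, 8, 6, 8, 8, 10, 0, 0, 0, 0, 0, 0, 0, 0, 0, 0, 0, 0, 0, 0, 0, 0, 10, 0, 0, 0, 0, 0, 0, 0, 0, 0, 0, 0, 0, 0, 0, 1, 8],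
  [0, 0, 0, 0, 0, 4, 0, 6, 0, 0, 0, 0, 0, 0, 0, 0, 0, 0, 0, 3, 5, 8, 9, 6, 0, 0, 0, 0, 0, 0, 0, 0, 0, 0, 0, 0, 0, 0, 0, 3, 1, 0, 0, 0, 0, 0, 0, 0, 0, 0, 0, 0, 0, 0, 10, 0, 0],
  [0, 0, 0, 0, 0, 0, 0, 5, 0, 0, 0, 0, 0, 0, 0, 0, 0, 0, 0, 8, 6, 3, 8, 1, 0, 0, 0, 0, 0, 0, 0, 0, 0, 0, 0, 0, 0, 0, 0, 3, 4, 0, 0, 0, 0, 0, 0, 0, 0, 0, 0, 0, 0, 0, 3, 0, 0],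
  [6, 0, 0, 0, 0, 4, 0, 0, 0, 0, 0, 0, 0, 0, 0, 0, 0, 5, 0, 0, 0, 0, 9, 9, 5, 8, 0, 0, 0, 0, 0, 0, 0, 0, 0, 0, 0, 0, 0, 0, 1, 3, 0, 0, 0, 0, 0, 0, 0, 0, 0, 0, 0, 0, 0, 8, 9],
  [6, 0, 0, 0, 0, 4, 0, 0, 6, 0, 0, 0, 0, 0, 0, 0, 0, 0, 0, 0, 0, 0, 6, 1, 6, 8, 0, 0, 0, 0, 0, 0, 0, 0, 0, 0, 0, 0, 0, 0, 10, 0, 0, 0, 0, 0, 0, 0, 0, 0, 0, 0, 0, 0, 3, 0, 1],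
  [6, 0, 0, 0, 0, 0, 0, 0, 0, 0, 0, 0, 0, 0, 0, 0, 0, 5, 0, 0, 0, 0, 9, 2, 5, 8, 0, 0, 0, 0, 0, 0, 0, 0, 0, 0, 0, 0, 0, 0, 7, 8, 0, 0, 0, 0, 0, 0, 0, 0, 0, 0, 0, 0, 2, 10, 0],
  [3, 0, 0, 0, 0, 0, 0, 0, 0, 0, 0, 0, 0, 0, 0, 0, 0, 5, 0, 0, 0, 0, 2, 0, 8, 5, 8, 0, 0, 0, 0, 0, 0, 0, 0, 0, 0, 0, 0, 0, 0, 8, 7, 0, 0, 0, 0, 0, 0, 0, 0, 0, 0, 0, 0, 0, 9],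
  [3, 0, 0, 0, 0, 0, 0, 0, 1, 0, 0, 0, 0, 0, 0, 0, 0, 0, 0, 0, 0, 0, 5, 0, 3, 5, 3, 0, 0, 0, 0, 0, 0, 0, 0, 0, 0, 0, 0, 0, 0, 0, 10, 0, 0, 0, 0, 0, 0, 0, 0, 0, 0, 0, 0, 0, 9],
  [3, 0, 0, 0, 0, 0, 0, 0, 0, 0, 0, 0, 0, 0, 0, 0, 0, 5, 0, 0, 0, 0, 2, 0, 8, 5, 2, 0, 0, 0, 0, 0, 0, 0, 0, 0, 0, 0, 0, 0, 0, 3, 1, 0, 0, 0, 0, 0, 0, 0, 0, 0, 0, 0, 2, 2, 0],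
  [0, 8, 0, 0, 0, 0, 0, 0, 0, 0, 0, 0, 0, 0, 0, 0, 0, 0, 0, 3, 0, 0, 3, 0, 0, 0, 9, 5, 0, 0, 0, 0, 0, 0, 0, 0, 0, 0, 0, 0, 0, 0, 4, 3, 0, 0, 0, 0, 0, 0, 0, 0, 0, 0, 0, 10, 8],
  [0, 3, 0, 0, 0, 0, 0, 0, 0, 0, 0, 0, 0, 0, 0, 0, 0, 0, 0, 8, 0, 0, 2, 0, 0, 0, 2, 6, 0, 0, 0, 0, 0, 0, 0, 0, 0, 0, 0, 0, 0, 0, 1, 3, 0, 0, 0, 0, 0, 0, 0, 0, 0, 0, 1, 0, 2],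
  [0, 3, 0, 0, 0, 0, 0, 0, 0, 0, 0, 0, 0, 0, 1, 0, 0, 0, 0, 3, 0, 0, 3, 0, 0, 0, 5, 5, 5, 0, 0, 0, 0, 0, 0, 0, 0, 0, 0, 0, 0, 0, 10, 0, 0, 0, 0, 0, 0, 0, 0, 0, 0, 0, 3, 9, 0],
  [0, 5, 0, 0, 0, 0, 0, 0, 0, 6, 0, 0, 0, 0, 0, 0, 0, 0, 0, 6, 0, 0, 0, 0, 0, 0, 2, 8, 0, 2, 0, 0, 0, 0, 0, 0, 0, 0, 0, 0, 0, 0, 0, 8, 10, 0, 0, 0, 0, 0, 0, 0, 0, 0, 0, 10, 0],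
  [0, 6, 0, 0, 0, 0, 0, 0, 0, 0, 0, 0, 0, 0, 0, 0, 0, 0, 0, 5, 0, 0, 0, 0, 0, 0, 9, 3, 0, 3, 0, 0, 0, 0, 0, 0, 0, 0, 0, 0, 0, 0, 0, 8, 7, 0, 0, 0, 0, 0, 0, 0, 0, 0, 1, 0, 10],
  [0, 6, 0, 0, 0, 0, 0, 0, 0, 5, 0, 0, 0, 0, 6, 0, 0, 0, 0, 6, 0, 0, 0, 0, 0, 0, 6, 8, 10, 8, 0, 0, 0, 0, 0, 0, 0, 0, 0, 0, 0, 0, 0, 0, 10, 0, 0, 0, 0, 0, 0, 0, 0, 0, 0, 1, 0],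
  [0, 0, 5, 0, 0, 0, 0, 0, 0, 6, 0, 0, 0, 0, 0, 5, 0, 0, 0, 0, 0, 0, 0, 0, 3, 0, 3, 0, 0, 5, 0, 0, 0, 0, 0, 0, 0, 0, 0, 0, 0, 0, 0, 0, 1, 0, 0, 0, 0, 0, 0, 0, 0, 0, 0, 0, 7],
  [0, 0, 0, 0, 0, 0, 0, 0, 0, 0, 0, 0, 0, 0, 0, 5, 0, 0, 0, 0, 0, 0, 0, 0, 8, 0, 8, 0, 0, 2, 5, 0, 0, 0, 0, 0, 0, 0, 0, 0, 0, 0, 0, 0, 4, 3, 0, 0, 0, 0, 0, 0, 0, 0, 0, 0, 0],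
  [0, 0, 0, 0, 0, 0, 0, 0, 0, 5, 0, 0, 0, 0, 0, 6, 0, 0, 0, 0, 0, 0, 0, 0, 3, 0, 9, 0, 0, 9, 6, 0, 0, 0, 0, 0, 0, 0, 0, 0, 0, 0, 0, 0, 1, 3, 0, 0, 0, 0, 0, 0, 0, 0, 4, 0, 0],
  [0, 0, 10, 0, 0, 0, 0, 0, 0, 0, 0, 0, 0, 0, 0, 8, 0, 0, 1, 0, 0, 0, 0, 0, 6, 0, 0, 0, 0, 6, 0, 5, 0, 0, 0, 0, 0, 0, 0, 0, 0, 0, 0, 0, 0, 0, 1, 0, 0, 0, 0, 0, 0, 0, 0, 8, 10],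
  [0, 0, 0, 0, 0, 0, 0, 0, 0, 0, 0, 0, 0, 0, 0, 8, 0, 0, 9, 0, 0, 0, 0, 0, 5, 0, 0, 0, 0, 9, 5, 5, 0, 0, 0, 0, 0, 0, 0, 0, 0, 0, 0, 0, 0, 8, 10, 0, 0, 0, 0, 0, 0, 0, 3, 0, 0],
  [0, 0, 0, 0, 0, 0, 0, 0, 0, 0, 0, 0, 0, 0, 0, 3, 0, 0, 9, 0, 0, 0, 0, 0, 6, 0, 0, 0, 0, 2, 6, 0, 0, 0, 0, 0, 0, 0, 0, 0, 0, 0, 0, 0, 0, 8, 7, 0, 0, 0, 0, 0, 0, 0, 1, 0, 0],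
  [0, 0, 0, 0, 0, 0, 0, 0, 0, 0, 0, 0, 0, 0, 0, 0, 8, 0, 6, 0, 5, 0, 0, 0, 0, 0, 0, 3, 0, 9, 0, 5, 0, 0, 0, 0, 0, 0, 0, 0, 0, 0, 0, 0, 0, 0, 10, 8, 0, 0, 0, 0, 0, 0, 0, 1, 9],
  [0, 0, 0, 0, 0, 0, 0, 0, 0, 0, 10, 0, 0, 0, 0, 0, 8, 0, 10, 0, 6, 0, 0, 0, 0, 0, 0, 8, 0, 8, 0, 5, 0, 0, 0, 0, 0, 0, 0, 0, 0, 0, 0, 0, 0, 0, 1, 0, 0, 0, 0, 0, 0, 0, 10, 0, 10],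
  [0, 0, 0, 0, 0, 0, 0, 0, 0, 0, 0, 0, 0, 0, 0, 0, 8, 0, 10, 0, 5, 0, 0, 0, 0, 0, 0, 3, 0, 3, 0, 0, 0, 0, 0, 0, 0, 0, 0, 0, 0, 0, 0, 0, 0, 0, 4, 3, 0, 0, 0, 0, 0, 0, 2, 1, 0],
  [0, 0, 0, 0, 0, 0, 0, 0, 0, 0, 0, 0, 0, 0, 0, 0, 5, 0, 0, 0, 8, 0, 0, 2, 0, 0, 0, 6, 0, 0, 0, 0, 3, 0, 0, 0, 0, 0, 0, 0, 0, 0, 0, 0, 0, 0, 0, 3, 4, 0, 0, 0, 0, 0, 0, 9, 9],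
  [0, 0, 0, 0, 0, 0, 0, 0, 0, 0, 5, 0, 0, 0, 0, 0, 5, 0, 0, 0, 3, 0, 0, 10, 0, 0, 0, 5, 0, 0, 6, 0, 3, 0, 0, 0, 0, 0, 0, 0, 0, 0, 0, 0, 0, 0, 0, 0, 10, 0, 0, 0, 0, 0, 2, 0, 2],
  [0, 0, 0, 0, 0, 0, 0, 0, 0, 0, 0, 0, 0, 0, 0, 0, 5, 0, 0, 0, 8, 0, 0, 9, 0, 0, 0, 6, 0, 0, 5, 0, 9, 0, 0, 0, 0, 0, 0, 0, 0, 0, 0, 0, 0, 0, 0, 8, 10, 0, 0, 0, 0, 0, 2, 9, 0],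
  [0, 0, 0, 8, 0, 0, 0, 0, 0, 0, 0, 5, 0, 0, 0, 0, 0, 0, 0, 0, 0, 3, 0, 1, 0, 6, 0, 0, 0, 0, 0, 6, 2, 0, 0, 0, 0, 0, 0, 0, 0, 0, 0, 0, 0, 0, 0, 0, 7, 8, 0, 0, 0, 0, 0, 10, 8],
  [0, 0, 0, 8, 0, 0, 0, 0, 0, 0, 0, 5, 0, 0, 0, 0, 0, 0, 0, 0, 0, 3, 0, 5, 0, 6, 0, 0, 0, 0, 6, 6, 2, 0, 0, 0, 0, 0, 0, 0, 0, 0, 0, 0, 0, 0, 0, 0, 1, 3, 0, 0, 0, 0, 1, 0, 9],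
  [0, 0, 0, 8, 0, 0, 0, 0, 0, 0, 0, 6, 0, 0, 0, 0, 0, 0, 0, 0, 0, 8, 0, 10, 0, 6, 0, 0, 6, 0, 5, 0, 6, 0, 0, 0, 0, 0, 0, 0, 0, 0, 0, 0, 0, 0, 0, 0, 1, 0, 0, 0, 0, 0, 3, 2, 0],
  [0, 0, 0, 5, 0, 0, 6, 0, 0, 0, 0, 8, 0, 9, 0, 0, 0, 0, 0, 0, 0, 6, 0, 0, 0, 3, 0, 0, 0, 0, 0, 6, 9, 0, 0, 0, 0, 0, 0, 0, 0, 0, 0, 0, 0, 0, 0, 0, 0, 3, 1, 0, 0, 0, 0, 10, 0],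
  [0, 0, 0, 5, 0, 0, 10, 0, 0, 0, 0, 8, 0, 2, 0, 0, 0, 0, 0, 0, 0, 6, 0, 0, 0, 3, 0, 0, 0, 0, 0, 6, 9, 0, 0, 0, 0, 0, 0, 0, 0, 0, 0, 0, 0, 0, 0, 0, 0, 8, 7, 0, 0, 0, 1, 0, 1],
  [0, 0, 0, 5, 0, 0, 1, 0, 0, 0, 0, 3, 0, 10, 0, 0, 0, 0, 0, 0, 0, 5, 0, 0, 0, 3, 0, 0, 1, 0, 0, 0, 5, 0, 0, 0, 0, 0, 0, 0, 0, 0, 0, 0, 0, 0, 0, 0, 0, 0, 1, 0, 0, 0, 0, 10, 0],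
  [0, 0, 0, 0, 0, 0, 1, 0, 0, 0, 0, 0, 0, 10, 0, 0, 0, 0, 0, 0, 0, 0, 0, 0, 0, 0, 0, 0, 0, 0, 0, 0, 8, 0, 0, 0, 0, 0, 0, 0, 0, 0, 0, 0, 0, 0, 0, 0, 0, 0, 10, 0, 0, 0, 0, 9, 7],
  [0, 0, 0, 0, 0, 0, 9, 0, 0, 0, 0, 0, 0, 1, 0, 0, 0, 0, 0, 0, 0, 0, 0, 0, 0, 0, 0, 0, 0, 0, 0, 0, 8, 0, 0, 0, 0, 0, 0, 0, 0, 0, 0, 0, 0, 0, 0, 0, 0, 0, 4, 0, 0, 0, 2, 0, 0],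
  [0, 0, 0, 0, 0, 0, 2, 0, 0, 0, 0, 0, 0, 5, 0, 0, 0, 0, 0, 0, 0, 0, 0, 0, 0, 0, 0, 0, 0, 0, 0, 0, 2, 0, 0, 0, 0, 0, 0, 0, 0, 0, 0, 0, 0, 0, 0, 0, 0, 0, 10, 0, 0, 0, 4, 0, 0]]

end Pool.Agent.MP_5fbfa0_co
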