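import Pool.Agent.MP_5fbfa0_co.Grad
import Pool.Agent.MP_5fbfa0_co.Data

/-! # Verification of the certificate -/

namespace Pool.Agent.MP_5fbfa0_co

open Finset

/-- vertices -/
def P (k : Fin (18 + 1)) (a : Fin 3) : ℤ := (Pdata.getD k []).getD a 0
/-- velocities -/
def Vel (k : Fin (18 + 1)) (a : Fin 3) : ℤ := (Vdata.getD k []).getD a 0
/-- contacts -/
def con (m : Fin 34) : Fin 18 × Fin 18 :=
  (Fin.ofNat 18 (Cdata.getD m (0, 0)).1, Fin.ofNat 18 (Cdata.getD m (0, 0)).2)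
/-- stress on contacts -/
def wt (m : Fin 34) : ℤ := Wdata.getD m 0
/-- stress on links -/
def rho (i : Fin 18) : ℤ := Rdata.getD i 0

theorem con_injective : Function.Injective con := by decide +kernel

theorem con_lt : ∀ m : Fin 34, ((con m).1 : ℕ) + 1 < ((con m).2 : ℕ) := by decide +kernel

theorem P_zero : ∀ a, P 0 a = 0 := by decide +kernel

theorem len2_P : ∀ i, len2 P i = 18 := by decide +kernel

theorem vol_con : ∀ m : Fin 34, vol P (con m).1 (con m).2 = 0 := by decide +kernel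

theorem wt_ne : ∀ m : Fin 34, wt m ≠ 0 := by decide +kernel

theorem wt_dvol : ∀ m : Fin 34, 0 < wt m * dvol P Vel (con m).1 (con m).2 := by decide +kernel

theorem crossing_con : ∀ m : Fin 34, CrossingZ P (con m).1 (con m).2 := by decide +kernel

theorem vol_or : ∀ i j : Fin 18, (i : ℕ) + 1 < (j : ℕ) → vol P i j ≠ 0 ∨ dvol P Vel i j ≠ 0 := by
  decide +kernel

theorem crs_ne : ∀ i j : Fin 18, (i : ℕ) + 1 = (j : ℕ) →
    ∃ a, crs (edge P i) (edge P j) a ≠ 0 := by decide +kernel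

theorem stress_Z : ∀ (k : Fin (18 + 1)) (a : Fin 3),
    ∑ m, wt m * gvol P (con m).1 (con m).2 k a + ∑ i, rho i * glen P i k a = 0 := by
  decide +kernel

/-- rows of the rigidity matrix -/
def rowf (r : Fin 57) (k : Fin (18 + 1)) (a : Fin 3) : ℤ :=
  if r.1 < 33 then gvol P (con (Fin.ofNat 34 (r + 1))).1 (con (Fin.ofNat 34 (r + 1))).2 k a
  else if r.1 < 51 then glen P (Fin.ofNat 18 (r - 33)) k a
  else if r.1 < 54 then (if k = 0 ∧ a.1 = r.1 - 51 then 1 else 0)
  else gcrs P (Fin.ofNat 3 (r - 54)) k a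

theorem rowf_mod : ∀ (k : Fin (18 + 1)) (a : Fin 3) (r : Fin 57),
    rowf r k a % 11 = (((Mdata.getD (3 * k + a) []).getD r 0 : ℕ) : ℤ) := by decide +kernel

theorem lengths : ∀ (k : Fin (18 + 1)) (a : Fin 3),
    (Mdata.getD (3 * k + a) []).length = 57 ∧ (Bdata.getD (3 * k + a) []).length = 57 := by
  decide +kernel

theorem prod_mod : ∀ (k : Fin (18 + 1)) (a : Fin 3) (k' : Fin (18 + 1)) (a' : Fin 3),
    dotN (Bdata.getD (3 * k + a) []) (Mdata.getD (3 * k' + a') []) % 11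
      = if k = k' ∧ a = a' then 1 else 0 := by decide +kernel

end Pool.Agent.MP_5fbfa0_co
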