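import Mathlib

/-!
# Open polygonal chains in space: configurations, motions, locked configurations, length ratios
-/

namespace Pool.Agent.MP_5fbfa0_co

/-- Euclidean 3-space. -/
abbrev E3 : Type := EuclideanSpace ℝ (Fin 3)

/-- The `i`-th link (a closed segment) of the polygonal chain with vertices `q 0, …, q n`. -/
def link {n : ℕ} (q : Fin (n + 1) → E3) (i : Fin n) : Set E3 :=
  segment ℝ (q i.castSucc) (q i.succ)

/-- `q` is a configuration of the open chain with `n` links of lengths `ℓ 0, …, ℓ (n-1)`:
the link lengths are right, consecutive links meet only in their shared endpoint, and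
nonconsecutive links are disjoint. -/
structure IsConfiguration {n : ℕ} (ℓ : Fin n → ℝ) (q : Fin (n + 1) → E3) : Prop where
  dist_eq : ∀ i : Fin n, dist (q i.castSucc) (q i.succ) = ℓ i
  consecutive : ∀ i j : Fin n, (i : ℕ) + 1 = (j : ℕ) → link q i ∩ link q j = {q i.succ}
  nonconsecutive : ∀ i j : Fin n, (i : ℕ) + 1 < (j : ℕ) → Disjoint (link q i) (link q j)

/-- A motion of the chain with link lengths `ℓ`: a continuous path of configurations. -/
def IsMotion {n : ℕ} (ℓ : Fin n → ℝ) (γ : unitInterval → Fin (n + 1) → E3) : Prop :=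
  Continuous γ ∧ ∀ t, IsConfiguration ℓ (γ t)

/-- All vertices lie, in order, on one line. -/
def IsStraight {n : ℕ} (q : Fin (n + 1) → E3) : Prop :=
  ∃ (a e : E3) (x : Fin (n + 1) → ℝ), e ≠ 0 ∧ StrictMono x ∧ ∀ k, q k = a + x k • e

/-- A locked configuration: no motion carries it to a straight configuration. -/
def IsLocked {n : ℕ} (ℓ : Fin n → ℝ) (q : Fin (n + 1) → E3) : Prop :=
  IsConfiguration ℓ q ∧
    ¬ ∃ γ : unitInterval → Fin (n + 1) → E3, IsMotion ℓ γ ∧ γ 0 = q ∧ IsStraight (γ 1)

/-- The length ratio: longest link over shortest link. -/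
noncomputable def lengthRatio {n : ℕ} (ℓ : Fin n → ℝ) : ℝ := (⨆ i, ℓ i) / (⨅ i, ℓ i)

/-- The set of length ratios of the chains (with at least one link and positive link lengths)
that have a locked configuration in space. -/
def lockedRatios : Set ℝ :=
  {r | ∃ (n : ℕ) (ℓ : Fin n → ℝ), 1 ≤ n ∧ (∀ i, 0 < ℓ i) ∧ (∃ q, IsLocked ℓ q) ∧
    r = lengthRatio ℓ}

/-- The constant `L` of the problem. -/
noncomputable def lockedConstant : ℝ := sInf lockedRatios

end Pool.Agent.MP_5fbfa0_co
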