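import Pool.Agent.MP_5fbfa0_co.Alg

/-! # The rigidity estimate -/

namespace Pool.Agent.MP_5fbfa0_co

open Finset

variable {n : ℕ}

/-- A first-order rigid self-touching configuration `p` with a stress. -/
structure Rigid (p : Fin (n + 1) → Fin 3 → ℝ) (K : Finset (Fin n × Fin n))
    (w : Fin n × Fin n → ℝ) (ρ : Fin n → ℝ) : Prop where
  vol_zero : ∀ c ∈ K, vol p c.1 c.2 = 0
  w_ne : ∀ c ∈ K, w c ≠ 0
  stress : ∀ u : Fin (n + 1) → Fin 3 → ℝ,
    ∑ c ∈ K, w c * dvol p u c.1 c.2 + ∑ i, ρ i * dlen p u i = 0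
  inj : ∀ u : Fin (n + 1) → Fin 3 → ℝ, u 0 = 0 → (∑ k, crs (p k) (u k) = 0) →
    (∀ c ∈ K, dvol p u c.1 c.2 = 0) → (∀ i, dlen p u i = 0) → u = 0

/-- violation of the linearized constraints -/
noncomputable def viol (p : Fin (n + 1) → Fin 3 → ℝ) (K : Finset (Fin n × Fin n))
    (w : Fin n × Fin n → ℝ) (u : Fin (n + 1) → Fin 3 → ℝ) : ℝ :=
  ∑ c ∈ K, max 0 (-(w c * dvol p u c.1 c.2)) + ∑ i, |dlen p u i|

theorem continuous_dvol (p : Fin (n + 1) → Fin 3 → ℝ) (i j : Fin n) :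
    Continuous fun u : Fin (n + 1) → Fin 3 → ℝ => dvol p u i j := by
  unfold dvol det3 edge off
  simp only [Pi.sub_apply]
  fun_prop

theorem continuous_dlen (p : Fin (n + 1) → Fin 3 → ℝ) (i : Fin n) :
    Continuous fun u : Fin (n + 1) → Fin 3 → ℝ => dlen p u i := by
  unfold dlen dot3 edge
  simp only [Pi.sub_apply]
  fun_prop

theorem continuous_vol (i j : Fin n) :
    Continuous fun u : Fin (n + 1) → Fin 3 → ℝ => vol u i j := by
  unfold vol det3 edge off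
  simp only [Pi.sub_apply]
  fun_prop

theorem continuous_len2 (i : Fin n) :
    Continuous fun u : Fin (n + 1) → Fin 3 → ℝ => len2 u i := by
  unfold len2 dot3 edge
  simp only [Pi.sub_apply]
  fun_prop

theorem continuous_crs_sum (p : Fin (n + 1) → Fin 3 → ℝ) :
    Continuous fun u : Fin (n + 1) → Fin 3 → ℝ => ∑ k, crs (p k) (u k) := by
  unfold crs
  refine continuous_finsetSum _ fun k _ => ?_
  refine continuous_pi fun a => ?_
  fin_cases a <;> simp <;> fun_prop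

theorem continuous_viol (p : Fin (n + 1) → Fin 3 → ℝ) (K : Finset (Fin n × Fin n))
    (w : Fin n × Fin n → ℝ) : Continuous (viol p K w) := by
  unfold viol
  refine Continuous.add ?_ ?_
  · refine continuous_finsetSum _ fun c _ => ?_
    exact continuous_const.max ((continuous_const.mul (continuous_dvol p c.1 c.2)).neg)
  · refine continuous_finsetSum _ fun i _ => ?_
    exact (continuous_dlen p i).abs

theorem viol_nonneg (p : Fin (n + 1) → Fin 3 → ℝ) (K : Finset (Fin n × Fin n))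
    (w : Fin n × Fin n → ℝ) (u : Fin (n + 1) → Fin 3 → ℝ) : 0 ≤ viol p K w u := by
  unfold viol
  exact add_nonneg (sum_nonneg fun c _ => le_max_left _ _) (sum_nonneg fun i _ => abs_nonneg _)

theorem viol_smul (p : Fin (n + 1) → Fin 3 → ℝ) (K : Finset (Fin n × Fin n))
    (w : Fin n × Fin n → ℝ) (u : Fin (n + 1) → Fin 3 → ℝ) {r : ℝ} (hr : 0 ≤ r) :
    viol p K w (r • u) = r * viol p K w u := by
  unfold viol
  rw [mul_add, mul_sum, mul_sum]
  congr 1
  · refine sum_congr rfl fun c _ => ?_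
    rw [dvol_smul, mul_max_of_nonneg _ _ hr, mul_zero]
    congr 1; ring
  · refine sum_congr rfl fun i _ => ?_
    rw [dlen_smul, abs_mul, abs_of_nonneg hr]

theorem Rigid.viol_pos {p : Fin (n + 1) → Fin 3 → ℝ} {K : Finset (Fin n × Fin n)}
    {w : Fin n × Fin n → ℝ} {ρ : Fin n → ℝ} (h : Rigid p K w ρ)
    (u : Fin (n + 1) → Fin 3 → ℝ) (hu : u ≠ 0) (h0 : u 0 = 0)
    (hc : ∑ k, crs (p k) (u k) = 0) : 0 < viol p K w u := by
  rcases (viol_nonneg p K w u).lt_or_eq with h1 | h1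
  · exact h1
  exfalso
  apply hu
  have h2 : ∑ c ∈ K, max 0 (-(w c * dvol p u c.1 c.2)) = 0 ∧ ∑ i, |dlen p u i| = 0 := by
    have a1 : 0 ≤ ∑ c ∈ K, max 0 (-(w c * dvol p u c.1 c.2)) :=
      sum_nonneg fun c _ => le_max_left _ _
    have a2 : 0 ≤ ∑ i, |dlen p u i| := sum_nonneg fun i _ => abs_nonneg _
    unfold viol at h1
    constructor <;> linarith
  have h3 : ∀ c ∈ K, 0 ≤ w c * dvol p u c.1 c.2 := by
    intro c hcK
    have := (sum_eq_zero_iff_of_nonneg (fun c _ => le_max_left _ _)).1 h2.1 c hcK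
    have h4 : -(w c * dvol p u c.1 c.2) ≤ 0 := by
      rw [← this]; exact le_max_right _ _
    linarith
  have h5 : ∀ i, dlen p u i = 0 := by
    intro i
    have := (sum_eq_zero_iff_of_nonneg (fun i _ => abs_nonneg _)).1 h2.2 i (mem_univ _)
    exact abs_eq_zero.1 this
  have h6 := h.stress u
  have h7 : ∑ i, ρ i * dlen p u i = 0 := sum_eq_zero fun i _ => by rw [h5 i, mul_zero]
  rw [h7, add_zero] at h6
  have h8 := (sum_eq_zero_iff_of_nonneg h3).1 h6
  refine h.inj u h0 hc (fun c hcK => ?_) h5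
  rcases mul_eq_zero.1 (h8 c hcK) with h9 | h9
  · exact absurd h9 (h.w_ne c hcK)
  · exact h9

theorem Rigid.exists_eta {p : Fin (n + 1) → Fin 3 → ℝ} {K : Finset (Fin n × Fin n)}
    {w : Fin n × Fin n → ℝ} {ρ : Fin n → ℝ} (h : Rigid p K w ρ) :
    ∃ η > 0, ∀ u : Fin (n + 1) → Fin 3 → ℝ, u 0 = 0 → ∑ k, crs (p k) (u k) = 0 →
      η * ‖u‖ ≤ viol p K w u := by
  set S : Set (Fin (n + 1) → Fin 3 → ℝ) :=
    Metric.sphere 0 1 ∩ ({u | u 0 = 0} ∩ {u | ∑ k, crs (p k) (u k) = 0}) with hS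
  have hSc : IsCompact S := by
    refine (isCompact_sphere _ _).inter_right (IsClosed.inter ?_ ?_)
    · exact isClosed_eq (continuous_apply 0) continuous_const
    · exact isClosed_eq (continuous_crs_sum p) continuous_const
  have main : ∃ η > 0, ∀ u ∈ S, η ≤ viol p K w u := by
    rcases S.eq_empty_or_nonempty with he | hne
    · exact ⟨1, one_pos, fun u hu => by rw [he] at hu; exact absurd hu (Set.notMem_empty _)⟩
    · obtain ⟨u₀, hu₀, hmin⟩ := hSc.exists_isMinOn hne (continuous_viol p K w).continuousOn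
      refine ⟨viol p K w u₀, ?_, fun u hu => hmin hu⟩
      refine h.viol_pos u₀ ?_ hu₀.2.1 hu₀.2.2
      intro h0
      have := hu₀.1
      rw [h0] at this
      simp at this
  obtain ⟨η, hη, hmain⟩ := main
  refine ⟨η, hη, fun u h0 hc => ?_⟩
  by_cases hu : u = 0
  · rw [hu]; simpa using viol_nonneg p K w 0
  have hn : 0 < ‖u‖ := norm_pos_iff.2 hu
  have hmem : (‖u‖⁻¹ • u) ∈ S := by
    refine ⟨?_, ?_, ?_⟩
    · simp [norm_smul, hn.ne']
    · simp [h0]
    · show ∑ k, crs (p k) ((‖u‖⁻¹ • u) k) = 0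
      have : ∀ k, crs (p k) ((‖u‖⁻¹ • u) k) = ‖u‖⁻¹ • crs (p k) (u k) := by
        intro k
        funext a
        fin_cases a <;> simp [crs] <;> ring
      rw [sum_congr rfl fun k _ => this k, ← smul_sum, hc, smul_zero]
  have h1 := hmain _ hmem
  rw [viol_smul _ _ _ _ (inv_nonneg.2 hn.le)] at h1
  rw [inv_mul_eq_div, le_div_iff₀ hn] at h1
  exact h1

theorem Rigid.estimate {p : Fin (n + 1) → Fin 3 → ℝ} {K : Finset (Fin n × Fin n)}
    {w : Fin n × Fin n → ℝ} {ρ : Fin n → ℝ} (h : Rigid p K w ρ) :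
    ∃ δ > 0, ∃ C > 0, ∀ u : Fin (n + 1) → Fin 3 → ℝ, u 0 = 0 → ∑ k, crs (p k) (u k) = 0 →
      ‖u‖ ≤ δ → (∀ c ∈ K, 0 ≤ w c * vol (p + u) c.1 c.2) →
      ∀ G : ℝ, 0 ≤ G → (∀ i, |len2 (p + u) i - len2 p i| ≤ G) → ‖u‖ ≤ C * G := by
  obtain ⟨η, hη, hmain⟩ := h.exists_eta
  set M : ℝ := ∑ c ∈ K, |w c| * (144 * ‖p‖ + 48) + ∑ _i : Fin n, 12 + 1 with hM
  have hM0 : 0 < M := by
    have : 0 ≤ ∑ c ∈ K, |w c| * (144 * ‖p‖ + 48) :=
      sum_nonneg fun c _ => by positivity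
    have h2 : (0 : ℝ) ≤ ∑ _i : Fin n, 12 := sum_nonneg fun _ _ => by norm_num
    linarith
  refine ⟨min 1 (η / (2 * M)), lt_min one_pos (by positivity), (2 * (n + 1)) / η, by positivity,
    fun u h0 hc hu hsign G hG1 hG => ?_⟩
  have hu1 : ‖u‖ ≤ 1 := hu.trans (min_le_left _ _)
  have hu2 : ‖u‖ * (2 * M) ≤ η := by
    have := hu.trans (min_le_right _ _)
    rwa [le_div_iff₀ (by positivity)] at this
  have h1 := hmain u h0 hc
  have hviol : viol p K w u ≤ M * ‖u‖ ^ 2 + n * G := by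
    unfold viol
    have e1 : ∑ c ∈ K, max 0 (-(w c * dvol p u c.1 c.2))
        ≤ (∑ c ∈ K, |w c| * (144 * ‖p‖ + 48)) * ‖u‖ ^ 2 := by
      rw [sum_mul]
      refine sum_le_sum fun c hcK => ?_
      refine max_le (by positivity) ?_
      have v := vol_add p u c.1 c.2
      rw [h.vol_zero c hcK, zero_add] at v
      have hs := hsign c hcK
      rw [v, mul_add] at hs
      have hr := abs_rvol_le p u hu1 c.1 c.2
      have : w c * rvol p u c.1 c.2 ≤ |w c| * ((144 * ‖p‖ + 48) * ‖u‖ ^ 2) := by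
        refine (le_abs_self _).trans ?_
        rw [abs_mul]
        exact mul_le_mul_of_nonneg_left hr (abs_nonneg _)
      linarith
    have e2 : ∑ i, |dlen p u i| ≤ (∑ _i : Fin n, (12 : ℝ)) * ‖u‖ ^ 2 + n * G := by
      have : ∑ i, |dlen p u i| ≤ ∑ _i : Fin n, (12 * ‖u‖ ^ 2 + G) := by
        refine sum_le_sum fun i _ => ?_
        have v := len2_add p u i
        have hg := abs_le.1 (hG i)
        have hl := abs_le.1 (abs_len2_le u i)
        have hG0 : 0 ≤ G := (abs_nonneg _).trans (hG i)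
        rw [abs_le]
        constructor <;> nlinarith [hg.1, hg.2, hl.1, hl.2, sq_nonneg ‖u‖]
      refine this.trans ?_
      simp only [sum_const, card_univ, Fintype.card_fin, nsmul_eq_mul]
      nlinarith
    have h3 : 0 ≤ ‖u‖ ^ 2 := by positivity
    calc _ ≤ (∑ c ∈ K, |w c| * (144 * ‖p‖ + 48)) * ‖u‖ ^ 2
          + ((∑ _i : Fin n, (12 : ℝ)) * ‖u‖ ^ 2 + n * G) := add_le_add e1 e2
      _ ≤ M * ‖u‖ ^ 2 + n * G := by rw [hM]; nlinarith
  have h4 : η * ‖u‖ ≤ M * ‖u‖ ^ 2 + n * G := h1.trans hviol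
  have h5 : M * ‖u‖ ^ 2 ≤ η / 2 * ‖u‖ := by
    have := mul_le_mul_of_nonneg_right hu2 (norm_nonneg u)
    nlinarith
  have h6 : η / 2 * ‖u‖ ≤ n * G := by linarith
  rw [div_mul_eq_mul_div, le_div_iff₀ hη]
  nlinarith

end Pool.Agent.MP_5fbfa0_co
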