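import Pool.Agent.MP_5fbfa0_co.Perturb

/-! # Gradients of the signed volumes and lengths, and casts -/

namespace Pool.Agent.MP_5fbfa0_co

open Finset

variable {n : ℕ}

section ring
variable {R : Type*} [CommRing R]

/-- coefficient of `u k a` in `dvol p u i j` -/
def gvol (p : Fin (n + 1) → Fin 3 → R) (i j : Fin n) (k : Fin (n + 1)) (a : Fin 3) : R :=
  (if k = i.succ then crs (edge p j) (off p i j) a else 0)
  - (if k = i.castSucc then crs (edge p j) (off p i j) a else 0)
  + (if k = j.succ then crs (off p i j) (edge p i) a else 0)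
  - (if k = j.castSucc then crs (off p i j) (edge p i) a else 0)
  + (if k = j.castSucc then crs (edge p i) (edge p j) a else 0)
  - (if k = i.castSucc then crs (edge p i) (edge p j) a else 0)

/-- coefficient of `u k a` in `dlen p u i` -/
def glen (p : Fin (n + 1) → Fin 3 → R) (i : Fin n) (k : Fin (n + 1)) (a : Fin 3) : R :=
  (if k = i.succ then edge p i a else 0) - (if k = i.castSucc then edge p i a else 0)

/-- coefficient of `u k a` in component `b` of the sum of the `crs (p k) (u k)` -/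
def gcrs (p : Fin (n + 1) → Fin 3 → R) (b : Fin 3) (k : Fin (n + 1)) (a : Fin 3) : R :=
  crs (p k) (Pi.single a 1) b

theorem sum_gvol (p u : Fin (n + 1) → Fin 3 → R) (i j : Fin n) :
    ∑ k, ∑ a, gvol p i j k a * u k a = dvol p u i j := by
  simp only [gvol, sub_mul, add_mul, ite_mul, zero_mul, Fin.sum_univ_three, sum_add_distrib,
    sum_sub_distrib, sum_ite_eq', mem_univ, if_true]
  simp only [dvol, det3, crs, Matrix.cons_val_zero, Matrix.cons_val_one, Matrix.cons_val]
  simp only [edge, off, Pi.sub_apply]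
  ring

theorem sum_glen (p u : Fin (n + 1) → Fin 3 → R) (i : Fin n) :
    ∑ k, ∑ a, glen p i k a * u k a = dlen p u i := by
  simp only [glen, sub_mul, ite_mul, zero_mul, Fin.sum_univ_three, sum_add_distrib,
    sum_sub_distrib, sum_ite_eq', mem_univ, if_true]
  simp only [dlen, dot3]
  simp only [edge, Pi.sub_apply]
  ring

theorem sum_gcrs (p u : Fin (n + 1) → Fin 3 → R) (b : Fin 3) :
    ∑ k, ∑ a, gcrs p b k a * u k a = (∑ k, crs (p k) (u k)) b := by
  rw [Finset.sum_apply]
  refine sum_congr rfl fun k _ => ?_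
  simp only [gcrs, Fin.sum_univ_three]
  fin_cases b <;> simp [crs, Pi.single_apply] <;> ring

end ring

/-- cast an integer configuration to a real one -/
def toReal (p : Fin (n + 1) → Fin 3 → ℤ) : Fin (n + 1) → Fin 3 → ℝ := fun k a => (p k a : ℝ)

theorem vol_toReal (p : Fin (n + 1) → Fin 3 → ℤ) (i j : Fin n) :
    vol (toReal p) i j = ((vol p i j : ℤ) : ℝ) := by
  simp only [vol, det3, edge, off, toReal, Pi.sub_apply]
  push_cast
  ring

theorem dvol_toReal (p u : Fin (n + 1) → Fin 3 → ℤ) (i j : Fin n) :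
    dvol (toReal p) (toReal u) i j = ((dvol p u i j : ℤ) : ℝ) := by
  simp only [dvol, det3, edge, off, toReal, Pi.sub_apply]
  push_cast
  ring

theorem len2_toReal (p : Fin (n + 1) → Fin 3 → ℤ) (i : Fin n) :
    len2 (toReal p) i = ((len2 p i : ℤ) : ℝ) := by
  simp only [len2, dot3, edge, toReal, Pi.sub_apply]
  push_cast
  ring

theorem crs_toReal (p : Fin (n + 1) → Fin 3 → ℤ) (i j : Fin n) (a : Fin 3) :
    crs (edge (toReal p) i) (edge (toReal p) j) a = ((crs (edge p i) (edge p j) a : ℤ) : ℝ) := by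
  fin_cases a <;> simp [crs, edge, toReal]

theorem gvol_toReal (p : Fin (n + 1) → Fin 3 → ℤ) (i j : Fin n) (k : Fin (n + 1)) (a : Fin 3) :
    gvol (toReal p) i j k a = ((gvol p i j k a : ℤ) : ℝ) := by
  simp only [gvol]
  push_cast
  fin_cases a <;>
  simp [crs, edge, off, toReal]

theorem glen_toReal (p : Fin (n + 1) → Fin 3 → ℤ) (i : Fin n) (k : Fin (n + 1)) (a : Fin 3) :
    glen (toReal p) i k a = ((glen p i k a : ℤ) : ℝ) := by
  simp only [glen]
  push_cast
  simp [edge, toReal]

theorem gcrs_toReal (p : Fin (n + 1) → Fin 3 → ℤ) (b : Fin 3) (k : Fin (n + 1)) (a : Fin 3) :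
    gcrs (toReal p) b k a = ((gcrs p b k a : ℤ) : ℝ) := by
  simp only [gcrs]
  fin_cases a <;> fin_cases b <;> simp [crs, toReal, Pi.single_apply]

/-- crossing conditions over the integers -/
def CrossingZ (x : Fin (n + 1) → Fin 3 → ℤ) (i j : Fin n) : Prop :=
  0 < det3 (off x i j) (edge x j) (crs (edge x i) (edge x j)) ∧
  det3 (off x i j) (edge x j) (crs (edge x i) (edge x j))
    < dot3 (crs (edge x i) (edge x j)) (crs (edge x i) (edge x j)) ∧
  0 < det3 (off x i j) (edge x i) (crs (edge x i) (edge x j)) ∧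
  det3 (off x i j) (edge x i) (crs (edge x i) (edge x j))
    < dot3 (crs (edge x i) (edge x j)) (crs (edge x i) (edge x j))

instance (x : Fin (n + 1) → Fin 3 → ℤ) (i j : Fin n) : Decidable (CrossingZ x i j) := by
  unfold CrossingZ; infer_instance

theorem CrossingZ.toReal {x : Fin (n + 1) → Fin 3 → ℤ} {i j : Fin n} (h : CrossingZ x i j) :
    Crossing (toReal x) i j := by
  have e1 : det3 (off (MP_5fbfa0_co.toReal x) i j) (edge (MP_5fbfa0_co.toReal x) j)
      (crs (edge (MP_5fbfa0_co.toReal x) i) (edge (MP_5fbfa0_co.toReal x) j))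
      = ((det3 (off x i j) (edge x j) (crs (edge x i) (edge x j)) : ℤ) : ℝ) := by
    simp only [det3, off, edge, crs, MP_5fbfa0_co.toReal, Pi.sub_apply, Matrix.cons_val_zero,
      Matrix.cons_val_one, Matrix.cons_val]
    push_cast; ring
  have e2 : det3 (off (MP_5fbfa0_co.toReal x) i j) (edge (MP_5fbfa0_co.toReal x) i)
      (crs (edge (MP_5fbfa0_co.toReal x) i) (edge (MP_5fbfa0_co.toReal x) j))
      = ((det3 (off x i j) (edge x i) (crs (edge x i) (edge x j)) : ℤ) : ℝ) := by
    simp only [det3, off, edge, crs, MP_5fbfa0_co.toReal, Pi.sub_apply, Matrix.cons_val_zero,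
      Matrix.cons_val_one, Matrix.cons_val]
    push_cast; ring
  have e3 : dot3 (crs (edge (MP_5fbfa0_co.toReal x) i) (edge (MP_5fbfa0_co.toReal x) j))
      (crs (edge (MP_5fbfa0_co.toReal x) i) (edge (MP_5fbfa0_co.toReal x) j))
      = ((dot3 (crs (edge x i) (edge x j)) (crs (edge x i) (edge x j)) : ℤ) : ℝ) := by
    simp only [dot3, edge, crs, MP_5fbfa0_co.toReal, Pi.sub_apply, Matrix.cons_val_zero,
      Matrix.cons_val_one, Matrix.cons_val]
    push_cast; ring
  obtain ⟨h1, h2, h3, h4⟩ := h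
  unfold Crossing
  rw [e1, e2, e3]
  exact ⟨by exact_mod_cast h1, by exact_mod_cast h2, by exact_mod_cast h3, by exact_mod_cast h4⟩

/-- dot product of two lists of naturals -/
def dotN : List ℕ → List ℕ → ℕ
  | a :: as, b :: bs => a * b + dotN as bs
  | _, _ => 0

theorem dotN_eq : ∀ (N : ℕ) (l₁ l₂ : List ℕ), l₁.length = N → l₂.length = N →
    dotN l₁ l₂ = ∑ r : Fin N, l₁.getD r 0 * l₂.getD r 0
  | 0, [], [], _, _ => by simp [dotN]
  | N + 1, a :: as, b :: bs, h₁, h₂ => by
    rw [Fin.sum_univ_succ]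
    simp only [dotN, Fin.val_zero, List.getD_cons_zero, Fin.val_succ, List.getD_cons_succ]
    rw [dotN_eq N as bs (by simpa using h₁) (by simpa using h₂)]

end Pool.Agent.MP_5fbfa0_co
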