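import Pool.Agent.MP_5fbfa0_co.Alg

/-! # Links in coordinates -/

namespace Pool.Agent.MP_5fbfa0_co

open Finset

variable {n : ℕ}

/-- coordinates of a chain -/
def co (q : Fin (n + 1) → E3) : Fin (n + 1) → Fin 3 → ℝ := fun k a => q k a

theorem mem_link {q : Fin (n + 1) → E3} {i : Fin n} {z : E3} :
    z ∈ link q i ↔ ∃ s ∈ Set.Icc (0 : ℝ) 1, ∀ a, z a = co q i.castSucc a + s * edge (co q) i a := by
  unfold link
  rw [segment_eq_image']
  constructor
  · rintro ⟨s, hs, rfl⟩
    refine ⟨s, hs, fun a => ?_⟩
    simp [co, edge]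
  · rintro ⟨s, hs, h⟩
    refine ⟨s, hs, ?_⟩
    ext a
    rw [h a]
    simp [co, edge]

theorem disjoint_of_vol_ne {q : Fin (n + 1) → E3} {i j : Fin n} (h : vol (co q) i j ≠ 0) :
    Disjoint (link q i) (link q j) := by
  rw [Set.disjoint_left]
  intro z hz1 hz2
  apply h
  obtain ⟨s, -, hs⟩ := mem_link.1 hz1
  obtain ⟨t, -, ht⟩ := mem_link.1 hz2
  have hoff : ∀ a, off (co q) i j a = s * edge (co q) i a - t * edge (co q) j a := by
    intro a
    have h1 := hs a
    have h2 := ht a
    simp only [off, Pi.sub_apply]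
    linarith
  simp only [vol, det3, hoff]
  ring

theorem consecutive_of_crs_ne {q : Fin (n + 1) → E3} {i j : Fin n} (hij : (i : ℕ) + 1 = (j : ℕ))
    (h : crs (edge (co q) i) (edge (co q) j) ≠ 0) : link q i ∩ link q j = {q i.succ} := by
  have hs : i.succ = j.castSucc := by
    apply Fin.ext
    simp [hij]
  ext z
  simp only [Set.mem_inter_iff, Set.mem_singleton_iff]
  constructor
  · rintro ⟨h1, h2⟩
    obtain ⟨s, -, hs1⟩ := mem_link.1 h1
    obtain ⟨t, -, ht1⟩ := mem_link.1 h2
    have key : ∀ a, (s - 1) * edge (co q) i a = t * edge (co q) j a := by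
      intro a
      have e1 := hs1 a
      have e2 := ht1 a
      rw [← hs] at e2
      have e3 : co q i.succ a = co q i.castSucc a + edge (co q) i a := by
        simp [edge]
      linarith
    have hs0 : s = 1 := by
      by_contra hne
      apply h
      have hne' : s - 1 ≠ 0 := sub_ne_zero.2 hne
      have e : ∀ a, edge (co q) i a = t / (s - 1) * edge (co q) j a := by
        intro a
        field_simp
        linarith [key a]
      funext a
      fin_cases a <;> simp [crs, e] <;> ring
    ext a
    rw [hs1 a, hs0]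
    simp [edge, co]
  · rintro rfl
    constructor
    · unfold link
      exact right_mem_segment _ _ _
    · unfold link
      rw [hs]
      exact left_mem_segment _ _ _

/-- crossing conditions for two links -/
def Crossing (x : Fin (n + 1) → Fin 3 → ℝ) (i j : Fin n) : Prop :=
  0 < det3 (off x i j) (edge x j) (crs (edge x i) (edge x j)) ∧
  det3 (off x i j) (edge x j) (crs (edge x i) (edge x j))
    < dot3 (crs (edge x i) (edge x j)) (crs (edge x i) (edge x j)) ∧
  0 < det3 (off x i j) (edge x i) (crs (edge x i) (edge x j)) ∧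
  det3 (off x i j) (edge x i) (crs (edge x i) (edge x j))
    < dot3 (crs (edge x i) (edge x j)) (crs (edge x i) (edge x j))

theorem Crossing.eventually {p : Fin (n + 1) → Fin 3 → ℝ} {i j : Fin n} (h : Crossing p i j) :
    ∀ᶠ x in nhds p, Crossing x i j := by
  have c1 : Continuous fun x : Fin (n + 1) → Fin 3 → ℝ =>
      det3 (off x i j) (edge x j) (crs (edge x i) (edge x j)) := by
    simp only [det3, off, edge, crs, Pi.sub_apply, Matrix.cons_val_zero, Matrix.cons_val_one,
      Matrix.cons_val]
    fun_prop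
  have c2 : Continuous fun x : Fin (n + 1) → Fin 3 → ℝ =>
      det3 (off x i j) (edge x i) (crs (edge x i) (edge x j)) := by
    simp only [det3, off, edge, crs, Pi.sub_apply, Matrix.cons_val_zero, Matrix.cons_val_one,
      Matrix.cons_val]
    fun_prop
  have c3 : Continuous fun x : Fin (n + 1) → Fin 3 → ℝ =>
      dot3 (crs (edge x i) (edge x j)) (crs (edge x i) (edge x j)) := by
    simp only [dot3, edge, crs, Pi.sub_apply, Matrix.cons_val_zero, Matrix.cons_val_one,
      Matrix.cons_val]
    fun_prop
  have h1 := (isOpen_lt continuous_const c1).mem_nhds h.1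
  have h2 := (isOpen_lt c1 c3).mem_nhds h.2.1
  have h3 := (isOpen_lt continuous_const c2).mem_nhds h.2.2.1
  have h4 := (isOpen_lt c2 c3).mem_nhds h.2.2.2
  filter_upwards [h1, h2, h3, h4] with x a1 a2 a3 a4
  exact ⟨a1, a2, a3, a4⟩

theorem Crossing.exists_params {x : Fin (n + 1) → Fin 3 → ℝ} {i j : Fin n} (h : Crossing x i j)
    (hv : vol x i j = 0) : ∃ s ∈ Set.Icc (0 : ℝ) 1, ∃ t ∈ Set.Icc (0 : ℝ) 1,
      ∀ a, off x i j a = s * edge x i a - t * edge x j a := by
  obtain ⟨h1, h2, h3, h4⟩ := h
  set N := dot3 (crs (edge x i) (edge x j)) (crs (edge x i) (edge x j)) with hN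
  have hN0 : 0 < N := h1.trans h2
  refine ⟨det3 (off x i j) (edge x j) (crs (edge x i) (edge x j)) / N,
    ⟨by positivity, by rw [div_le_one hN0]; exact h2.le⟩,
    det3 (off x i j) (edge x i) (crs (edge x i) (edge x j)) / N,
    ⟨by positivity, by rw [div_le_one hN0]; exact h4.le⟩, fun a => ?_⟩
  have := cross_identity (edge x i) (edge x j) (off x i j) a
  have hv' : det3 (edge x i) (edge x j) (off x i j) = 0 := hv
  rw [hv', zero_mul, ← hN] at this
  field_simp
  linarith

end Pool.Agent.MP_5fbfa0_co
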