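import Pool.Agent.MP_5fbfa0_co.Trap

/-! # Perturbing a self-touching configuration to a genuine one -/

namespace Pool.Agent.MP_5fbfa0_co

open Finset Filter Topology

variable {n : ℕ}

/-- the chain with vertices `p k + τ v k` -/
noncomputable def pert (p v : Fin (n + 1) → Fin 3 → ℝ) (τ : ℝ) : Fin (n + 1) → E3 :=
  fun k => WithLp.toLp 2 (p k + τ • v k)

theorem co_pert (p v : Fin (n + 1) → Fin 3 → ℝ) (τ : ℝ) : co (pert p v τ) = p + τ • v := by
  funext k a
  simp [co, pert]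

theorem vol_pert (p v : Fin (n + 1) → Fin 3 → ℝ) (i j : Fin n) :
    ∃ g : ℝ → ℝ, Tendsto g (𝓝 0) (𝓝 0) ∧
      ∀ τ : ℝ, vol (p + τ • v) i j = vol p i j + τ * (dvol p v i j + g τ) := by
  refine ⟨fun τ => τ * (det3 (edge v i) (edge v j) (off p i j)
      + det3 (edge p i) (edge v j) (off v i j) + det3 (edge v i) (edge p j) (off v i j))
      + τ * τ * det3 (edge v i) (edge v j) (off v i j), ?_, fun τ => ?_⟩
  · have : Continuous fun τ : ℝ => τ * (det3 (edge v i) (edge v j) (off p i j)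
      + det3 (edge p i) (edge v j) (off v i j) + det3 (edge v i) (edge p j) (off v i j))
      + τ * τ * det3 (edge v i) (edge v j) (off v i j) := by fun_prop
    have h := this.tendsto 0
    simpa using h
  · rw [vol_add, dvol_smul, rvol_smul]
    ring

theorem eventually_vol_ne (p v : Fin (n + 1) → Fin 3 → ℝ) (i j : Fin n)
    (h : vol p i j ≠ 0 ∨ dvol p v i j ≠ 0) : ∀ᶠ τ in 𝓝[>] (0 : ℝ), vol (p + τ • v) i j ≠ 0 := by
  obtain ⟨g, hg, hv⟩ := vol_pert p v i j
  by_cases h0 : vol p i j = 0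
  · have hd : dvol p v i j ≠ 0 := by
      rcases h with h | h
      · exact absurd h0 h
      · exact h
    have h1 : Tendsto (fun τ => dvol p v i j + g τ) (𝓝 0) (𝓝 (dvol p v i j)) := by
      simpa using tendsto_const_nhds.add hg
    have h2 : ∀ᶠ τ in 𝓝[>] (0 : ℝ), dvol p v i j + g τ ≠ 0 :=
      nhdsWithin_le_nhds (h1.eventually_ne hd)
    filter_upwards [h2, self_mem_nhdsWithin] with τ h3 h4
    rw [hv, h0, zero_add]
    exact mul_ne_zero (ne_of_gt h4) h3
  · have h1 : Tendsto (fun τ => vol p i j + τ * (dvol p v i j + g τ)) (𝓝 0) (𝓝 (vol p i j)) := by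
      have : Tendsto (fun τ : ℝ => vol p i j + τ * (dvol p v i j + g τ)) (𝓝 0)
          (𝓝 (vol p i j + 0 * (dvol p v i j + 0))) :=
        tendsto_const_nhds.add (tendsto_id.mul (tendsto_const_nhds.add hg))
      simpa using this
    have h2 : ∀ᶠ τ in 𝓝[>] (0 : ℝ), vol p i j + τ * (dvol p v i j + g τ) ≠ 0 :=
      nhdsWithin_le_nhds (h1.eventually_ne h0)
    filter_upwards [h2] with τ h3
    rwa [hv]

theorem eventually_sign (p v : Fin (n + 1) → Fin 3 → ℝ) (i j : Fin n) (w : ℝ)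
    (h0 : vol p i j = 0) (h : 0 < w * dvol p v i j) :
    ∀ᶠ τ in 𝓝[>] (0 : ℝ), 0 < w * vol (p + τ • v) i j := by
  obtain ⟨g, hg, hv⟩ := vol_pert p v i j
  have h1 : Tendsto (fun τ => w * (dvol p v i j + g τ)) (𝓝 0) (𝓝 (w * dvol p v i j)) := by
    simpa using (tendsto_const_nhds (x := w)).mul
      ((tendsto_const_nhds (x := dvol p v i j)).add hg)
  have h2 : ∀ᶠ τ in 𝓝[>] (0 : ℝ), 0 < w * (dvol p v i j + g τ) :=
    nhdsWithin_le_nhds (h1.eventually (lt_mem_nhds h))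
  filter_upwards [h2, self_mem_nhdsWithin] with τ h3 h4
  rw [hv, h0, zero_add]
  have h5 : w * (τ * (dvol p v i j + g τ)) = τ * (w * (dvol p v i j + g τ)) := by ring
  rw [h5]
  exact mul_pos h4 h3

theorem eventually_crs_ne (p v : Fin (n + 1) → Fin 3 → ℝ) (i j : Fin n)
    (h : crs (edge p i) (edge p j) ≠ 0) :
    ∀ᶠ τ in 𝓝[>] (0 : ℝ), crs (edge (p + τ • v) i) (edge (p + τ • v) j) ≠ 0 := by
  have hc : Continuous fun τ : ℝ => crs (edge (p + τ • v) i) (edge (p + τ • v) j) := by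
    refine continuous_pi fun a => ?_
    fin_cases a <;> simp [crs, edge] <;> fun_prop
  have h1 := hc.tendsto 0
  simp only [zero_smul, add_zero] at h1
  exact nhdsWithin_le_nhds (h1.eventually_ne h)

theorem eventually_config (p v : Fin (n + 1) → Fin 3 → ℝ)
    (h1 : ∀ i j : Fin n, (i : ℕ) + 1 < (j : ℕ) → vol p i j ≠ 0 ∨ dvol p v i j ≠ 0)
    (h2 : ∀ i j : Fin n, (i : ℕ) + 1 = (j : ℕ) → crs (edge p i) (edge p j) ≠ 0) :
    ∀ᶠ τ in 𝓝[>] (0 : ℝ), IsConfiguration
      (fun i => dist (pert p v τ i.castSucc) (pert p v τ i.succ)) (pert p v τ) := by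
  have e1 : ∀ᶠ τ in 𝓝[>] (0 : ℝ), ∀ i j : Fin n, (i : ℕ) + 1 < (j : ℕ) →
      vol (p + τ • v) i j ≠ 0 := by
    refine eventually_all.2 fun i => eventually_all.2 fun j => ?_
    by_cases hij : (i : ℕ) + 1 < (j : ℕ)
    · filter_upwards [eventually_vol_ne p v i j (h1 i j hij)] with τ h _
      exact h
    · exact Eventually.of_forall fun τ h => absurd h hij
  have e2 : ∀ᶠ τ in 𝓝[>] (0 : ℝ), ∀ i j : Fin n, (i : ℕ) + 1 = (j : ℕ) →
      crs (edge (p + τ • v) i) (edge (p + τ • v) j) ≠ 0 := by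
    refine eventually_all.2 fun i => eventually_all.2 fun j => ?_
    by_cases hij : (i : ℕ) + 1 = (j : ℕ)
    · filter_upwards [eventually_crs_ne p v i j (h2 i j hij)] with τ h _
      exact h
    · exact Eventually.of_forall fun τ h => absurd h hij
  filter_upwards [e1, e2] with τ a1 a2
  refine ⟨fun i => rfl, fun i j hij => ?_, fun i j hij => ?_⟩
  · apply consecutive_of_crs_ne hij
    rw [co_pert]
    exact a2 i j hij
  · apply disjoint_of_vol_ne
    rw [co_pert]
    exact a1 i j hij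

theorem continuous_pert (p v : Fin (n + 1) → Fin 3 → ℝ) : Continuous (pert p v) := by
  unfold pert
  fun_prop

theorem exists_locked {p v : Fin (n + 1) → Fin 3 → ℝ} {K : Finset (Fin n × Fin n)}
    {w : Fin n × Fin n → ℝ} {ρ : Fin n → ℝ} (h : Rigid p K w ρ) (hp0 : p 0 = 0)
    (hK : K.Nonempty) (hKlt : ∀ c ∈ K, (c.1 : ℕ) + 1 < (c.2 : ℕ))
    (hcross : ∀ c ∈ K, Crossing p c.1 c.2)
    (h1 : ∀ i j : Fin n, (i : ℕ) + 1 < (j : ℕ) → vol p i j ≠ 0 ∨ dvol p v i j ≠ 0)
    (h2 : ∀ i j : Fin n, (i : ℕ) + 1 = (j : ℕ) → crs (edge p i) (edge p j) ≠ 0)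
    (h3 : ∀ c ∈ K, 0 < w c * dvol p v c.1 c.2)
    {r : ℝ} (hr : 0 < r) (hlen : ∀ i, len2 p i = r ^ 2) (ε : ℝ) (hε : 0 < ε) :
    ∃ ℓ : Fin n → ℝ, (∀ i, |ℓ i - r| < ε) ∧ ∃ q, IsLocked ℓ q := by
  obtain ⟨δ, hδ, G, hG, htrap⟩ := trap h hp0 hK hKlt hcross
  have e1 := eventually_config p v h1 h2
  have e2 : ∀ᶠ τ in 𝓝[>] (0 : ℝ), ∀ c ∈ K, 0 < w c * vol (co (pert p v τ)) c.1 c.2 := by
    refine (Finset.eventually_all K).2 fun c hc => ?_
    filter_upwards [eventually_sign p v c.1 c.2 (w c) (h.vol_zero c hc) (h3 c hc)] with τ ht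
    rwa [co_pert]
  have hdist : ∀ i : Fin n, Tendsto (fun τ => dist (pert p v τ i.castSucc) (pert p v τ i.succ))
      (𝓝 0) (𝓝 r) := by
    intro i
    have hc : Continuous fun τ => dist (pert p v τ i.castSucc) (pert p v τ i.succ) :=
      ((continuous_apply i.castSucc).comp (continuous_pert p v)).dist
        ((continuous_apply i.succ).comp (continuous_pert p v))
    have := hc.tendsto 0
    have e : dist (pert p v 0 i.castSucc) (pert p v 0 i.succ) = r := by
      have hl := len2_co (pert p v 0) i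
      rw [co_pert, zero_smul, add_zero, hlen i] at hl
      exact (pow_left_inj₀ dist_nonneg hr.le two_ne_zero).1 hl.symm
    rwa [e] at this
  have e3 : ∀ᶠ τ in 𝓝[>] (0 : ℝ), ∀ i : Fin n,
      |dist (pert p v τ i.castSucc) (pert p v τ i.succ) - r| < ε := by
    refine eventually_all.2 fun i => nhdsWithin_le_nhds ?_
    have := (hdist i).eventually (Metric.ball_mem_nhds r hε)
    filter_upwards [this] with τ ht
    simpa [Real.dist_eq] using ht
  have e4 : ∀ᶠ τ in 𝓝[>] (0 : ℝ), ∀ i : Fin n,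
      |dist (pert p v τ i.castSucc) (pert p v τ i.succ) ^ 2 - len2 p i| ≤ G := by
    refine eventually_all.2 fun i => nhdsWithin_le_nhds ?_
    have := ((hdist i).pow 2).eventually (Metric.ball_mem_nhds (r ^ 2) hG)
    filter_upwards [this] with τ ht
    rw [hlen i]
    rw [Real.dist_eq] at ht
    exact ht.le
  have e5 : ∀ᶠ τ in 𝓝[>] (0 : ℝ), ‖rel (pert p v τ) - p‖ < δ := by
    have hc : Continuous fun τ => ‖rel (pert p v τ) - p‖ :=
      ((continuous_rel.comp (continuous_pert p v)).sub continuous_const).norm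
    have h0 : ‖rel (pert p v 0) - p‖ = 0 := by
      rw [norm_eq_zero]
      funext k a
      simp [rel, co_pert, hp0]
    have := hc.tendsto 0
    rw [h0] at this
    exact nhdsWithin_le_nhds (this.eventually_lt_const hδ)
  obtain ⟨τ, a1, a2, a3, a4, a5⟩ := (e1.and (e2.and (e3.and (e4.and e5)))).exists
  exact ⟨_, a3, _, htrap _ _ a1 a4 a5 a2⟩

end Pool.Agent.MP_5fbfa0_co
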