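import Pool.Agent.MP_5fbfa0_co.Alg

/-! # Rotations of space: compactness and optimal alignment -/

namespace Pool.Agent.MP_5fbfa0_co

open Finset Matrix

/-- rotation matrices -/
def SO3 : Set (Matrix (Fin 3) (Fin 3) ℝ) := {A | Aᵀ * A = 1 ∧ A.det = 1}

theorem one_mem_SO3 : (1 : Matrix (Fin 3) (Fin 3) ℝ) ∈ SO3 := by simp [SO3]

theorem mul_mem_SO3 {A B : Matrix (Fin 3) (Fin 3) ℝ} (hA : A ∈ SO3) (hB : B ∈ SO3) :
    A * B ∈ SO3 := by
  refine ⟨?_, ?_⟩
  · rw [transpose_mul, Matrix.mul_assoc, ← Matrix.mul_assoc Aᵀ, hA.1, Matrix.one_mul, hB.1]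
  · rw [det_mul, hA.2, hB.2, one_mul]

theorem dot3_eq (x y : Fin 3 → ℝ) : dot3 x y = x ⬝ᵥ y := by
  simp [dot3, dotProduct, Fin.sum_univ_three]

theorem dot3_mulVec {A : Matrix (Fin 3) (Fin 3) ℝ} (hA : A ∈ SO3) (x y : Fin 3 → ℝ) :
    dot3 (A *ᵥ x) (A *ᵥ y) = dot3 x y := by
  rw [dot3_eq, dot3_eq, Matrix.dotProduct_mulVec, Matrix.vecMul_mulVec, hA.1, Matrix.vecMul_one]

theorem det3_mulVec {A : Matrix (Fin 3) (Fin 3) ℝ} (hA : A ∈ SO3) (x y z : Fin 3 → ℝ) :
    det3 (A *ᵥ x) (A *ᵥ y) (A *ᵥ z) = det3 x y z := by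
  have h : det3 (A *ᵥ x) (A *ᵥ y) (A *ᵥ z) = A.det * det3 x y z := by
    rw [Matrix.det_fin_three]
    simp only [det3, mulVec, dotProduct, Fin.sum_univ_three]
    ring
  rw [h, hA.2, one_mul]

theorem mulVec_injective {A : Matrix (Fin 3) (Fin 3) ℝ} (hA : A ∈ SO3) {x y : Fin 3 → ℝ}
    (h : A *ᵥ x = A *ᵥ y) : x = y := by
  have h2 := congrArg (fun z => Aᵀ *ᵥ z) h
  simp only [Matrix.mulVec_mulVec, hA.1, Matrix.one_mulVec] at h2
  exact h2

theorem isClosed_SO3 : IsClosed SO3 := by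
  refine IsClosed.inter ?_ ?_
  · exact isClosed_eq (by fun_prop) continuous_const
  · exact isClosed_eq (by fun_prop) continuous_const

theorem abs_entry_le {A : Matrix (Fin 3) (Fin 3) ℝ} (hA : A ∈ SO3) (i j : Fin 3) :
    |A i j| ≤ 1 := by
  have h := congrFun (congrFun hA.1 j) j
  simp only [Matrix.mul_apply, Matrix.transpose_apply, Matrix.one_apply_eq,
    Fin.sum_univ_three] at h
  rw [abs_le]
  fin_cases i <;> simp only [Fin.zero_eta, Fin.mk_one, Fin.reduceFinMk] <;>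
    constructor <;> nlinarith [sq_nonneg (A 0 j), sq_nonneg (A 1 j), sq_nonneg (A 2 j)]

theorem isCompact_SO3 : IsCompact SO3 := by
  have hbox : IsCompact (Set.pi Set.univ fun _ : Fin 3 => Set.pi Set.univ fun _ : Fin 3 =>
      Set.Icc (-1 : ℝ) 1) :=
    isCompact_univ_pi fun _ => isCompact_univ_pi fun _ => isCompact_Icc
  have hsub : SO3 ⊆ (Set.pi Set.univ fun _ : Fin 3 => Set.pi Set.univ fun _ : Fin 3 =>
      Set.Icc (-1 : ℝ) 1 : Set (Fin 3 → Fin 3 → ℝ)) := by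
    intro A hA i _ j _
    exact abs_le.1 (abs_entry_le hA i j)
  exact hbox.of_isClosed_subset isClosed_SO3 hsub

/-- rotation about the third axis -/
noncomputable def rotZ (θ : ℝ) : Matrix (Fin 3) (Fin 3) ℝ :=
  !![Real.cos θ, -Real.sin θ, 0; Real.sin θ, Real.cos θ, 0; 0, 0, 1]

/-- rotation about the first axis -/
noncomputable def rotX (θ : ℝ) : Matrix (Fin 3) (Fin 3) ℝ :=
  !![1, 0, 0; 0, Real.cos θ, -Real.sin θ; 0, Real.sin θ, Real.cos θ]

/-- rotation about the second axis -/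
noncomputable def rotY (θ : ℝ) : Matrix (Fin 3) (Fin 3) ℝ :=
  !![Real.cos θ, 0, Real.sin θ; 0, 1, 0; -Real.sin θ, 0, Real.cos θ]

theorem rotZ_mem (θ : ℝ) : rotZ θ ∈ SO3 := by
  have h := Real.sin_sq_add_cos_sq θ
  refine ⟨?_, ?_⟩
  · ext i j
    fin_cases i <;> fin_cases j <;>
      simp [rotZ, Matrix.mul_apply, Fin.sum_univ_three] <;> nlinarith [h]
  · rw [rotZ, Matrix.det_fin_three]
    simp; nlinarith [h]

theorem rotX_mem (θ : ℝ) : rotX θ ∈ SO3 := by
  have h := Real.sin_sq_add_cos_sq θ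
  refine ⟨?_, ?_⟩
  · ext i j
    fin_cases i <;> fin_cases j <;>
      simp [rotX, Matrix.mul_apply, Fin.sum_univ_three] <;> nlinarith [h]
  · rw [rotX, Matrix.det_fin_three]
    simp; nlinarith [h]

theorem rotY_mem (θ : ℝ) : rotY θ ∈ SO3 := by
  have h := Real.sin_sq_add_cos_sq θ
  refine ⟨?_, ?_⟩
  · ext i j
    fin_cases i <;> fin_cases j <;>
      simp [rotY, Matrix.mul_apply, Fin.sum_univ_three] <;> nlinarith [h]
  · rw [rotY, Matrix.det_fin_three]
    simp; nlinarith [h]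

theorem cos_sin_max {α β : ℝ} (h : ∀ θ : ℝ, Real.cos θ * α + Real.sin θ * β ≤ α) : β = 0 := by
  have hmax : IsLocalMax (fun θ : ℝ => Real.cos θ * α + Real.sin θ * β) 0 := by
    refine Filter.Eventually.of_forall fun θ => ?_
    simpa using h θ
  have hd : HasDerivAt (fun θ : ℝ => Real.cos θ * α + Real.sin θ * β)
      (-Real.sin 0 * α + Real.cos 0 * β) 0 :=
    ((Real.hasDerivAt_cos 0).mul_const α).add ((Real.hasDerivAt_sin 0).mul_const β)
  have := hmax.hasDerivAt_eq_zero hd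
  simpa using this

variable {n : ℕ}

/-- sum of squared distances -/
def sqdist (x p : Fin (n + 1) → Fin 3 → ℝ) : ℝ := ∑ k, dot3 (x k - p k) (x k - p k)

/-- rotate a configuration -/
def act (A : Matrix (Fin 3) (Fin 3) ℝ) (x : Fin (n + 1) → Fin 3 → ℝ) : Fin (n + 1) → Fin 3 → ℝ :=
  fun k => A *ᵥ x k

theorem sqdist_act {A : Matrix (Fin 3) (Fin 3) ℝ} (hA : A ∈ SO3)
    (x p : Fin (n + 1) → Fin 3 → ℝ) :
    sqdist (act A x) p = (∑ k, dot3 (x k) (x k)) + (∑ k, dot3 (p k) (p k))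
      - 2 * ∑ k, dot3 (A *ᵥ x k) (p k) := by
  unfold sqdist act
  rw [mul_sum, ← sum_add_distrib, ← sum_sub_distrib]
  refine sum_congr rfl fun k _ => ?_
  rw [← dot3_mulVec hA (x k) (x k)]
  simp only [dot3, Pi.sub_apply]
  ring

theorem continuous_sqdist_act (p : Fin (n + 1) → Fin 3 → ℝ) :
    Continuous fun z : Matrix (Fin 3) (Fin 3) ℝ × (Fin (n + 1) → Fin 3 → ℝ) =>
      sqdist (act z.1 z.2) p := by
  unfold sqdist act
  refine continuous_finsetSum _ fun k _ => ?_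
  simp only [dot3, Pi.sub_apply, mulVec, dotProduct, Fin.sum_univ_three]
  fun_prop

theorem exists_align (p x : Fin (n + 1) → Fin 3 → ℝ) :
    ∃ A ∈ SO3, (∀ B ∈ SO3, sqdist (act A x) p ≤ sqdist (act B x) p) ∧
      ∑ k, crs (p k) (act A x k - p k) = 0 := by
  have hcont : Continuous fun A : Matrix (Fin 3) (Fin 3) ℝ => sqdist (act A x) p := by
    unfold sqdist act
    refine continuous_finsetSum _ fun k _ => ?_
    simp only [dot3, Pi.sub_apply, mulVec, dotProduct, Fin.sum_univ_three]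
    fun_prop
  obtain ⟨A, hA, hmin⟩ := isCompact_SO3.exists_isMinOn ⟨1, one_mem_SO3⟩ hcont.continuousOn
  refine ⟨A, hA, fun B hB => hmin hB, ?_⟩
  set y : Fin (n + 1) → Fin 3 → ℝ := act A x with hy
  have key : ∀ R ∈ SO3, ∑ k, dot3 (R *ᵥ y k) (p k) ≤ ∑ k, dot3 (y k) (p k) := by
    intro R hR
    have h1 := hmin (mul_mem_SO3 hR hA)
    simp only [Set.mem_setOf_eq] at h1
    rw [sqdist_act hA, sqdist_act (mul_mem_SO3 hR hA)] at h1
    have h2 : ∀ k, (R * A) *ᵥ x k = R *ᵥ y k := by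
      intro k
      rw [hy]
      simp [act, Matrix.mulVec_mulVec]
    simp only [h2] at h1
    have h3 : ∀ k, A *ᵥ x k = y k := fun k => rfl
    simp only [h3] at h1
    linarith
  have hz : ∑ k, (y k 0 * p k 1 - y k 1 * p k 0) = 0 := by
    refine cos_sin_max (α := ∑ k, (y k 0 * p k 0 + y k 1 * p k 1)) fun θ => ?_
    have h := key _ (rotZ_mem θ)
    have e1 : ∑ k, dot3 (rotZ θ *ᵥ y k) (p k)
        = Real.cos θ * ∑ k, (y k 0 * p k 0 + y k 1 * p k 1)
          + Real.sin θ * ∑ k, (y k 0 * p k 1 - y k 1 * p k 0) + ∑ k, y k 2 * p k 2 := by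
      rw [mul_sum, mul_sum, ← sum_add_distrib, ← sum_add_distrib]
      refine sum_congr rfl fun k _ => ?_
      simp [dot3, rotZ, mulVec, dotProduct, Fin.sum_univ_three]
      ring
    have e2 : ∑ k, dot3 (y k) (p k) = ∑ k, (y k 0 * p k 0 + y k 1 * p k 1)
        + ∑ k, y k 2 * p k 2 := by
      rw [← sum_add_distrib]
      rfl
    rw [e1, e2] at h
    linarith
  have hx : ∑ k, (y k 1 * p k 2 - y k 2 * p k 1) = 0 := by
    refine cos_sin_max (α := ∑ k, (y k 1 * p k 1 + y k 2 * p k 2)) fun θ => ?_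
    have h := key _ (rotX_mem θ)
    have e1 : ∑ k, dot3 (rotX θ *ᵥ y k) (p k)
        = Real.cos θ * ∑ k, (y k 1 * p k 1 + y k 2 * p k 2)
          + Real.sin θ * ∑ k, (y k 1 * p k 2 - y k 2 * p k 1) + ∑ k, y k 0 * p k 0 := by
      rw [mul_sum, mul_sum, ← sum_add_distrib, ← sum_add_distrib]
      refine sum_congr rfl fun k _ => ?_
      simp [dot3, rotX, mulVec, dotProduct, Fin.sum_univ_three]
      ring
    have e2 : ∑ k, dot3 (y k) (p k) = ∑ k, (y k 1 * p k 1 + y k 2 * p k 2)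
        + ∑ k, y k 0 * p k 0 := by
      rw [← sum_add_distrib]
      refine sum_congr rfl fun k _ => ?_
      simp [dot3]; ring
    rw [e1, e2] at h
    linarith
  have hyy : ∑ k, (y k 2 * p k 0 - y k 0 * p k 2) = 0 := by
    refine cos_sin_max (α := ∑ k, (y k 2 * p k 2 + y k 0 * p k 0)) fun θ => ?_
    have h := key _ (rotY_mem θ)
    have e1 : ∑ k, dot3 (rotY θ *ᵥ y k) (p k)
        = Real.cos θ * ∑ k, (y k 2 * p k 2 + y k 0 * p k 0)
          + Real.sin θ * ∑ k, (y k 2 * p k 0 - y k 0 * p k 2) + ∑ k, y k 1 * p k 1 := by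
      rw [mul_sum, mul_sum, ← sum_add_distrib, ← sum_add_distrib]
      refine sum_congr rfl fun k _ => ?_
      simp [dot3, rotY, mulVec, dotProduct, Fin.sum_univ_three]
      ring
    have e2 : ∑ k, dot3 (y k) (p k) = ∑ k, (y k 2 * p k 2 + y k 0 * p k 0)
        + ∑ k, y k 1 * p k 1 := by
      rw [← sum_add_distrib]
      refine sum_congr rfl fun k _ => ?_
      simp [dot3]; ring
    rw [e1, e2] at h
    linarith
  funext a
  rw [Finset.sum_apply]
  fin_cases a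
  · simp only [crs, Fin.zero_eta, Matrix.cons_val_zero, Pi.zero_apply, Pi.sub_apply]
    rw [← neg_eq_zero, ← hx, ← sum_neg_distrib]
    exact sum_congr rfl fun k _ => by ring
  · simp only [crs, Fin.mk_one, Matrix.cons_val_one, Matrix.cons_val_zero, Pi.zero_apply,
      Pi.sub_apply]
    rw [← neg_eq_zero, ← hyy, ← sum_neg_distrib]
    exact sum_congr rfl fun k _ => by ring
  · simp only [crs, Fin.reduceFinMk, Matrix.cons_val, Pi.zero_apply, Pi.sub_apply]
    rw [← neg_eq_zero, ← hz, ← sum_neg_distrib]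
    exact sum_congr rfl fun k _ => by ring

end Pool.Agent.MP_5fbfa0_co
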