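import Pool.Agent.MP_5fbfa0_co.Estimate
import Pool.Agent.MP_5fbfa0_co.Rot
import Pool.Agent.MP_5fbfa0_co.Links

/-! # Configurations near a rigid self-touching configuration are locked -/

namespace Pool.Agent.MP_5fbfa0_co

open Finset Matrix

variable {n : ℕ}

/-- coordinates relative to the first vertex -/
def rel (q : Fin (n + 1) → E3) : Fin (n + 1) → Fin 3 → ℝ := fun k => co q k - co q 0

theorem edge_rel (q : Fin (n + 1) → E3) (i : Fin n) : edge (rel q) i = edge (co q) i := by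
  simp [edge, rel]

theorem off_rel (q : Fin (n + 1) → E3) (i j : Fin n) : off (rel q) i j = off (co q) i j := by
  simp [off, rel]

theorem edge_act (A : Matrix (Fin 3) (Fin 3) ℝ) (x : Fin (n + 1) → Fin 3 → ℝ) (i : Fin n) :
    edge (act A x) i = A *ᵥ edge x i := by
  simp [edge, act, Matrix.mulVec_sub]

theorem off_act (A : Matrix (Fin 3) (Fin 3) ℝ) (x : Fin (n + 1) → Fin 3 → ℝ) (i j : Fin n) :
    off (act A x) i j = A *ᵥ off x i j := by
  simp [off, act, Matrix.mulVec_sub]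

theorem vol_act {A : Matrix (Fin 3) (Fin 3) ℝ} (hA : A ∈ SO3) (q : Fin (n + 1) → E3)
    (i j : Fin n) : vol (act A (rel q)) i j = vol (co q) i j := by
  simp only [vol, edge_act, off_act, edge_rel, off_rel, det3_mulVec hA]

theorem len2_act {A : Matrix (Fin 3) (Fin 3) ℝ} (hA : A ∈ SO3) (q : Fin (n + 1) → E3)
    (i : Fin n) : len2 (act A (rel q)) i = len2 (co q) i := by
  simp only [len2, edge_act, edge_rel, dot3_mulVec hA]

theorem len2_co (q : Fin (n + 1) → E3) (i : Fin n) :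
    len2 (co q) i = dist (q i.castSucc) (q i.succ) ^ 2 := by
  rw [EuclideanSpace.dist_eq, Real.sq_sqrt (Finset.sum_nonneg fun _ _ => sq_nonneg _)]
  simp only [len2, dot3, edge, co, Pi.sub_apply, Fin.sum_univ_three, Real.dist_eq, sq_abs]
  ring

theorem continuous_co : Continuous (co : (Fin (n + 1) → E3) → Fin (n + 1) → Fin 3 → ℝ) := by
  unfold co
  fun_prop

theorem continuous_rel : Continuous (rel : (Fin (n + 1) → E3) → Fin (n + 1) → Fin 3 → ℝ) := by
  unfold rel co
  fun_prop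

theorem sqdist_le (x p : Fin (n + 1) → Fin 3 → ℝ) :
    sqdist x p ≤ 3 * (n + 1) * ‖x - p‖ ^ 2 := by
  unfold sqdist
  have : ∀ k, dot3 (x k - p k) (x k - p k) ≤ 3 * ‖x - p‖ ^ 2 := by
    intro k
    refine (le_abs_self _).trans ((abs_dot3_le _ _).trans ?_)
    have h := norm_le_pi_norm (x - p) k
    have h0 := norm_nonneg (x k - p k)
    simp only [Pi.sub_apply] at h
    nlinarith
  refine (sum_le_sum fun k _ => this k).trans ?_
  simp only [sum_const, card_univ, Fintype.card_fin, nsmul_eq_mul]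
  push_cast
  linarith

theorem norm_le_of_sqdist {x p : Fin (n + 1) → Fin 3 → ℝ} {δ : ℝ} (hδ : 0 ≤ δ)
    (h : sqdist x p ≤ δ ^ 2) : ‖x - p‖ ≤ δ := by
  rw [pi_norm_le_iff_of_nonneg hδ]
  intro k
  rw [pi_norm_le_iff_of_nonneg hδ]
  intro a
  rw [Real.norm_eq_abs]
  refine abs_le_of_sq_le_sq ?_ hδ
  refine le_trans ?_ h
  unfold sqdist
  refine le_trans ?_ (single_le_sum (f := fun k => dot3 (x k - p k) (x k - p k))
    (fun k _ => ?_) (mem_univ k))
  · simp only [dot3, Pi.sub_apply]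
    fin_cases a <;> simp only [Fin.zero_eta, Fin.mk_one, Fin.reduceFinMk] <;>
      nlinarith [sq_nonneg (x k 0 - p k 0), sq_nonneg (x k 1 - p k 1),
        sq_nonneg (x k 2 - p k 2)]
  · simp only [dot3]
    nlinarith [sq_nonneg ((x k - p k) 0), sq_nonneg ((x k - p k) 1), sq_nonneg ((x k - p k) 2)]

theorem vol_ne_of_near {ℓ : Fin n → ℝ} {q : Fin (n + 1) → E3} (hq : IsConfiguration ℓ q)
    {A : Matrix (Fin 3) (Fin 3) ℝ} (hA : A ∈ SO3) {i j : Fin n} (hij : (i : ℕ) + 1 < (j : ℕ))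
    (hc : Crossing (act A (rel q)) i j) : vol (co q) i j ≠ 0 := by
  intro hv
  rw [← vol_act hA] at hv
  obtain ⟨s, hs, t, ht, h⟩ := hc.exists_params hv
  have hd := hq.nonconsecutive i j hij
  rw [Set.disjoint_left] at hd
  -- the common point
  have hvec : off (co q) i j = s • edge (co q) i - t • edge (co q) j := by
    apply mulVec_injective hA
    rw [Matrix.mulVec_sub, Matrix.mulVec_smul, Matrix.mulVec_smul]
    funext a
    have := h a
    rw [off_act, edge_act, edge_act, off_rel, edge_rel, edge_rel] at this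
    simpa using this
  set z : E3 := q i.castSucc + s • (q i.succ - q i.castSucc) with hz
  have hz1 : z ∈ link q i := by
    refine mem_link.2 ⟨s, hs, fun a => ?_⟩
    simp [hz, co, edge]
  have hz2 : z ∈ link q j := by
    refine mem_link.2 ⟨t, ht, fun a => ?_⟩
    have := congrFun hvec a
    simp only [off, edge, co, Pi.sub_apply, Pi.smul_apply, smul_eq_mul] at this
    simp only [hz, co, edge, PiLp.add_apply, PiLp.smul_apply, PiLp.sub_apply, smul_eq_mul,
      Pi.sub_apply]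
    linarith
  exact hd hz1 hz2

theorem vol_straight {q : Fin (n + 1) → E3} (hq : IsStraight q) (i j : Fin n) :
    vol (co q) i j = 0 := by
  obtain ⟨a, e, x, -, -, h⟩ := hq
  simp only [vol, det3, edge, off, co, Pi.sub_apply, h, PiLp.add_apply, PiLp.smul_apply,
    smul_eq_mul]
  ring

theorem trap {p : Fin (n + 1) → Fin 3 → ℝ} {K : Finset (Fin n × Fin n)}
    {w : Fin n × Fin n → ℝ} {ρ : Fin n → ℝ} (h : Rigid p K w ρ) (hp0 : p 0 = 0)
    (hK : K.Nonempty) (hKlt : ∀ c ∈ K, (c.1 : ℕ) + 1 < (c.2 : ℕ))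
    (hcross : ∀ c ∈ K, Crossing p c.1 c.2) :
    ∃ δ > 0, ∃ G > 0, ∀ (ℓ : Fin n → ℝ) (q : Fin (n + 1) → E3), IsConfiguration ℓ q →
      (∀ i, |ℓ i ^ 2 - len2 p i| ≤ G) → ‖rel q - p‖ < δ →
      (∀ c ∈ K, 0 < w c * vol (co q) c.1 c.2) → IsLocked ℓ q := by
  obtain ⟨δ₁, hδ₁, C, hC, hest⟩ := h.estimate
  have hnear : ∀ᶠ x in nhds p, ∀ c ∈ K, Crossing x c.1 c.2 :=
    (Finset.eventually_all K).2 fun c hc => (hcross c hc).eventually
  obtain ⟨δ₂, hδ₂, hball⟩ := Metric.eventually_nhds_iff.1 hnear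
  set δ : ℝ := min δ₁ (δ₂ / 2) with hδdef
  have hδ : 0 < δ := lt_min hδ₁ (by positivity)
  have hcr : ∀ x : Fin (n + 1) → Fin 3 → ℝ, ‖x - p‖ ≤ δ → ∀ c ∈ K, Crossing x c.1 c.2 := by
    intro x hx
    apply hball
    rw [dist_eq_norm]
    have := hx.trans (min_le_right _ _)
    linarith
  set N : ℝ := 3 * (n + 1) with hN
  have hN1 : 1 ≤ N := by
    have : (0 : ℝ) ≤ n := Nat.cast_nonneg n
    linarith
  set G : ℝ := δ / (2 * C * N) with hG
  have hG0 : 0 < G := by positivity
  refine ⟨δ / (2 * N), by positivity, G, hG0, fun ℓ q hq hℓ hqp hqv => ⟨hq, ?_⟩⟩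
  rintro ⟨γ, ⟨hγc, hγ⟩, hγ0, hγ1⟩
  -- the two descriptions of the trapping set
  set T : Set unitInterval := {t | ∃ A ∈ SO3, sqdist (act A (rel (γ t))) p < δ ^ 2 ∧
    ∀ c ∈ K, 0 < w c * vol (co (γ t)) c.1 c.2} with hT
  have hT' : T = {t | ∃ A ∈ SO3, sqdist (act A (rel (γ t))) p ≤ (δ / 2) ^ 2 ∧
      ∀ c ∈ K, 0 ≤ w c * vol (co (γ t)) c.1 c.2} := by
    ext t
    constructor
    · rintro ⟨B, hB, hB1, hB2⟩
      obtain ⟨A, hA, hAmin, hAg⟩ := exists_align p (rel (γ t))
      have h1 : sqdist (act A (rel (γ t))) p ≤ δ ^ 2 := (hAmin B hB).trans hB1.le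
      set u : Fin (n + 1) → Fin 3 → ℝ := act A (rel (γ t)) - p with hu
      have hpu : p + u = act A (rel (γ t)) := by rw [hu]; abel
      have hnorm : ‖u‖ ≤ δ := norm_le_of_sqdist hδ.le h1
      have hu0 : u 0 = 0 := by
        rw [hu]
        funext a
        simp [act, rel, hp0]
      have hest' := hest u hu0 hAg (hnorm.trans (min_le_left _ _)) (fun c hc => by
        rw [hpu, vol_act hA]; exact (hB2 c hc).le) G hG0.le (fun i => by
        rw [hpu, len2_act hA, len2_co, (hγ t).dist_eq i]; exact hℓ i)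
      refine ⟨A, hA, ?_, fun c hc => (hB2 c hc).le⟩
      have h2 := sqdist_le (act A (rel (γ t))) p
      rw [← hu, ← hN] at h2
      have h3 : C * G = δ / (2 * N) := by
        rw [hG]; field_simp
      rw [h3] at hest'
      have h4 : ‖u‖ ^ 2 ≤ (δ / (2 * N)) ^ 2 := pow_le_pow_left₀ (norm_nonneg _) hest' 2
      calc sqdist (act A (rel (γ t))) p ≤ N * ‖u‖ ^ 2 := h2
        _ ≤ N * (δ / (2 * N)) ^ 2 := mul_le_mul_of_nonneg_left h4 (by positivity)
        _ = (δ / 2) ^ 2 / N := by field_simp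
        _ ≤ (δ / 2) ^ 2 := div_le_self (by positivity) hN1
    · rintro ⟨A, hA, hA1, hA2⟩
      have h1 : sqdist (act A (rel (γ t))) p < δ ^ 2 := by
        refine hA1.trans_lt ?_
        nlinarith
      refine ⟨A, hA, h1, fun c hc => ?_⟩
      have h2 : ‖act A (rel (γ t)) - p‖ ≤ δ := norm_le_of_sqdist hδ.le h1.le
      have h3 := vol_ne_of_near (hγ t) hA (hKlt c hc) (hcr _ h2 c hc)
      exact lt_of_le_of_ne (hA2 c hc) (mul_ne_zero (h.w_ne c hc) h3).symm
  have hTopen : IsOpen T := by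
    have : T = ⋃ A ∈ SO3, {t | sqdist (act A (rel (γ t))) p < δ ^ 2 ∧
        ∀ c ∈ K, 0 < w c * vol (co (γ t)) c.1 c.2} := by
      ext t
      constructor
      · rintro ⟨A, hA, h1, h2⟩
        exact Set.mem_biUnion hA ⟨h1, h2⟩
      · intro ht
        obtain ⟨A, hA, h1, h2⟩ := Set.mem_iUnion₂.1 ht
        exact ⟨A, hA, h1, h2⟩
    rw [this]
    refine isOpen_biUnion fun A _ => ?_
    have hc1 : Continuous fun t => sqdist (act A (rel (γ t))) p := by
      have := (continuous_sqdist_act p).comp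
        ((continuous_const (y := A)).prodMk (continuous_rel.comp hγc))
      exact this
    have hc2 : ∀ c : Fin n × Fin n, Continuous fun t => w c * vol (co (γ t)) c.1 c.2 := fun c =>
      continuous_const.mul ((continuous_vol c.1 c.2).comp (continuous_co.comp hγc))
    have e : {t | sqdist (act A (rel (γ t))) p < δ ^ 2 ∧
        ∀ c ∈ K, 0 < w c * vol (co (γ t)) c.1 c.2} =
        {t | sqdist (act A (rel (γ t))) p < δ ^ 2} ∩
          ⋂ c ∈ K, {t | 0 < w c * vol (co (γ t)) c.1 c.2} := by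
      ext t
      simp
    rw [e]
    refine (isOpen_lt hc1 continuous_const).inter ?_
    exact isOpen_biInter_finset fun c _ => isOpen_lt continuous_const (hc2 c)
  have hTclosed : IsClosed T := by
    rw [hT']
    have e : {t | ∃ A ∈ SO3, sqdist (act A (rel (γ t))) p ≤ (δ / 2) ^ 2 ∧
        ∀ c ∈ K, 0 ≤ w c * vol (co (γ t)) c.1 c.2} =
        Prod.snd '' ((SO3 ×ˢ (Set.univ : Set unitInterval)) ∩
          ({z : Matrix (Fin 3) (Fin 3) ℝ × unitInterval |
            sqdist (act z.1 (rel (γ z.2))) p ≤ (δ / 2) ^ 2} ∩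
            ⋂ c ∈ K, {z : Matrix (Fin 3) (Fin 3) ℝ × unitInterval |
              0 ≤ w c * vol (co (γ z.2)) c.1 c.2})) := by
      ext t
      constructor
      · rintro ⟨A, hA, h1, h2⟩
        refine ⟨(A, t), ⟨⟨hA, Set.mem_univ _⟩, h1, ?_⟩, rfl⟩
        simpa using h2
      · rintro ⟨⟨A, t'⟩, ⟨⟨hA, -⟩, h1, h2⟩, rfl⟩
        refine ⟨A, hA, h1, ?_⟩
        simpa using h2
    rw [e]
    have hc1 : Continuous fun z : Matrix (Fin 3) (Fin 3) ℝ × unitInterval =>
        sqdist (act z.1 (rel (γ z.2))) p := by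
      have := (continuous_sqdist_act p).comp
        (continuous_fst.prodMk (continuous_rel.comp (hγc.comp continuous_snd)) :
          Continuous fun z : Matrix (Fin 3) (Fin 3) ℝ × unitInterval => (z.1, rel (γ z.2)))
      exact this
    have hc2 : ∀ c : Fin n × Fin n, Continuous fun z : Matrix (Fin 3) (Fin 3) ℝ × unitInterval =>
        w c * vol (co (γ z.2)) c.1 c.2 := fun c =>
      continuous_const.mul
        ((continuous_vol c.1 c.2).comp (continuous_co.comp (hγc.comp continuous_snd)))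
    have hcomp : IsCompact ((SO3 ×ˢ (Set.univ : Set unitInterval)) ∩
          ({z : Matrix (Fin 3) (Fin 3) ℝ × unitInterval |
            sqdist (act z.1 (rel (γ z.2))) p ≤ (δ / 2) ^ 2} ∩
            ⋂ c ∈ K, {z : Matrix (Fin 3) (Fin 3) ℝ × unitInterval |
              0 ≤ w c * vol (co (γ z.2)) c.1 c.2})) := by
      refine (isCompact_SO3.prod isCompact_univ).inter_right ?_
      refine (isClosed_le hc1 continuous_const).inter ?_
      exact isClosed_biInter fun c _ => isClosed_le continuous_const (hc2 c)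
    exact (hcomp.image continuous_snd).isClosed
  have h0T : (0 : unitInterval) ∈ T := by
    refine ⟨1, one_mem_SO3, ?_, ?_⟩
    · rw [hγ0]
      have e1 : act (1 : Matrix (Fin 3) (Fin 3) ℝ) (rel q) = rel q := by
        funext k; simp [act]
      rw [e1]
      have h2 := sqdist_le (rel q) p
      rw [← hN] at h2
      have h4 : ‖rel q - p‖ ^ 2 < (δ / (2 * N)) ^ 2 :=
        pow_lt_pow_left₀ hqp (norm_nonneg _) two_ne_zero
      calc sqdist (rel q) p ≤ N * ‖rel q - p‖ ^ 2 := h2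
        _ < N * (δ / (2 * N)) ^ 2 := mul_lt_mul_of_pos_left h4 (by positivity)
        _ = (δ / 2) ^ 2 / N := by field_simp
        _ ≤ (δ / 2) ^ 2 := div_le_self (by positivity) hN1
        _ ≤ δ ^ 2 := by nlinarith
    · rw [hγ0]; exact hqv
  have hTuniv : T = Set.univ := IsClopen.eq_univ ⟨hTclosed, hTopen⟩ ⟨0, h0T⟩
  have h1T : (1 : unitInterval) ∈ T := by rw [hTuniv]; exact Set.mem_univ _
  obtain ⟨A, hA, -, h2⟩ := h1T
  obtain ⟨c, hc⟩ := hK
  have := h2 c hc
  rw [vol_straight hγ1, mul_zero] at this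
  exact lt_irrefl _ this

end Pool.Agent.MP_5fbfa0_co
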